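import Pool.Agent.TH852.SP.All0
import Pool.Agent.TH623.VS.Node
import Pool.Agent.TH873.VS.PT
import Pool.Agent.TH251.VS.Irr
import Pool.Agent.TH582.SP.IND

namespace Pool.Agent.TH852.SP

open MvPolynomial

theorem all (d : ℕ) (hd : 3 ≤ d) (F : R4)
    (hF : VG d F) (r : ℕ) (hr : d ≤ r) :
    ∃ H : ℕ → MvPolynomial (Fin r × Fin (3 + 1)) ℂ,
      (∀ k, ∃ w : Fin r → Fin (3 + 1) → ℂ, (∀ q, w q 0 = 1 ∧ eval (w q) F = 0) ∧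
        eval (fun p => w p.1 p.2) (H k) ≠ 0) ∧
      ∀ w : Fin r → Fin (3 + 1) → ℂ, (∀ q, w q 0 = 1 ∧ eval (w q) F = 0) →
        (∀ k, eval (fun p => w p.1 p.2) (H k) ≠ 0) →
        Function.Injective w ∧
        (∀ (e : ℕ) (m : Fin r → ℕ), series F e m w ≠ ⊥ → (∑ q, m q) ^ 2 ≤ r * d * e ^ 2) ∧
        (∀ ε : ℝ, 0 < ε → ∃ M₀ : ℕ, ∀ M : ℕ, M₀ ≤ M → ∀ e : ℕ,
          (1 + ε) * √(r : ℝ) * M ≤ √(d : ℝ) * e → ∀ m : Fin r → ℕ, (∀ q, m q ≤ M) →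
          (Module.finrank ℂ (series F e m w) : ℤ) =
            (e + 3).choose 3 - (e + 3 - d).choose 3 - ∑ q, ((m q + 1).choose 2 : ℤ)) :=
  main (fin2_of (Pool.Agent.TH873.VS.t_PT Pool.Agent.TH22.VS.t_TR)
      (Pool.Agent.TH251.VS.t_IRR Pool.Agent.TH22.VS.t_TR) Pool.Agent.TH623.VS.t_NODE
      (Pool.Agent.TH582.SP.t_IND Pool.Agent.TH374.VSL.t_LOC))
    Pool.Agent.TH370.SP.t_HF (Pool.Agent.TH873.VS.t_PT Pool.Agent.TH22.VS.t_TR) d hd F hF r hr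

end Pool.Agent.TH852.SP
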