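import Pool.Agent.TH852.SP.Stmts

namespace Pool.Agent.TH852.SP

open MvPolynomial Filter Topology Pool.Agent.W607

theorem ch3 (n : ℕ) : ((n + 3).choose 3 : ℝ) = ((n : ℝ) + 3) * (n + 2) * (n + 1) / 6 := by
  induction n with
  | zero => norm_num [Nat.choose]
  | succ n ih =>
    have h : (n + 1 + 3).choose 3 = (n + 3).choose 2 + (n + 3).choose 3 := by
      rw [show n + 1 + 3 = (n + 3) + 1 from by ring]; rfl
    rw [h, Nat.cast_add, ih, Nat.cast_choose_two]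
    push_cast
    ring

theorem hilb_formula (hHF : S_HF) {d : ℕ} {F : R4} (hF : F.IsHomogeneous d) (hF0 : F ≠ 0)
    {t : ℕ} (ht : d ≤ t) :
    2 * (hilb (Ideal.span {F}) t : ℝ) =
      d * (t : ℝ) ^ 2 + (4 - d) * d * t + d * ((d : ℝ) ^ 2 - 6 * d + 11) / 3 := by
  obtain ⟨u, rfl⟩ := Nat.exists_eq_add_of_le' ht
  have h := (hHF d F hF hF0).2 u
  have h1 : (hilb (Ideal.span {F}) (u + d) : ℝ) = ((u + d + 3).choose 3 : ℝ) - ((u + 3).choose 3 : ℝ) := by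
    rw [eq_sub_iff_add_eq]; exact_mod_cast h
  rw [h1, ch3, ch3]
  push_cast
  ring

theorem growth (hHF : S_HF) {d : ℕ} {F : R4} (hF : F.IsHomogeneous d) (hF0 : F ≠ 0) :
    Tendsto (fun t : ℕ => 2 * (hilb (Ideal.span {F}) t : ℝ) / (t : ℝ) ^ 2) atTop (𝓝 (d : ℝ)) := by
  have h1 : Tendsto (fun t : ℕ => (d : ℝ) + (4 - d) * d * (1 / (t : ℝ)) +
      d * ((d : ℝ) ^ 2 - 6 * d + 11) / 3 * (1 / (t : ℝ)) ^ 2) atTop
      (𝓝 ((d : ℝ) + (4 - d) * d * 0 + d * ((d : ℝ) ^ 2 - 6 * d + 11) / 3 * 0 ^ 2)) := by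
    have h0 := tendsto_one_div_atTop_nhds_zero_nat (𝕜 := ℝ)
    exact (tendsto_const_nhds.add (tendsto_const_nhds.mul h0)).add
      (tendsto_const_nhds.mul (h0.pow 2))
  have h2 : (d : ℝ) + (4 - d) * d * 0 + d * ((d : ℝ) ^ 2 - 6 * d + 11) / 3 * 0 ^ 2 = d := by ring
  rw [h2] at h1
  refine h1.congr' ?_
  filter_upwards [eventually_ge_atTop (max d 1)] with t ht
  have ht1 : d ≤ t := (le_max_left _ _).trans ht
  have ht2 : 1 ≤ t := (le_max_right _ _).trans ht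
  have ht3 : (t : ℝ) ≠ 0 := by positivity
  rw [hilb_formula hHF hF hF0 ht1]
  field_simp

/-- the difference of two values -/
theorem hilb_diff (hHF : S_HF) {d : ℕ} {F : R4} (hF : F.IsHomogeneous d) (hF0 : F ≠ 0)
    {E e : ℕ} (hE : d + e ≤ E) :
    (hilb (Ideal.span {F}) E : ℝ) ≤ hilb (Ideal.span {F}) (E - e) + d * e * E + 2 * d * e := by
  have h1 := hilb_formula hHF hF hF0 (t := E) (by omega)
  have h2 := hilb_formula hHF hF hF0 (t := E - e) (by omega)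
  have h3 : ((E - e : ℕ) : ℝ) = (E : ℝ) - e := by
    rw [Nat.cast_sub (by omega)]
  rw [h3] at h2
  have hd : (0 : ℝ) ≤ d := by positivity
  have he : (0 : ℝ) ≤ e := by positivity
  nlinarith [mul_nonneg hd (mul_nonneg he he), mul_nonneg (mul_nonneg hd hd) he]

end Pool.Agent.TH852.SP
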