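import Pool.Agent.TH836.NS.SepNodal
import Pool.Agent.TH508.NS.Node
import Pool.Agent.TH852.SP.Num

namespace Pool.Agent.TH852.SP

open MvPolynomial Filter Topology Pool.Agent.W607

theorem pl_hom (t a b : ℂ) : (pl t a b).IsHomogeneous 1 := by
  have h : ∀ c : ℂ, ∀ i : Fin (3 + 1), (C c * X i : R4).IsHomogeneous 1 := fun c i => by
    simpa using (isHomogeneous_C (Fin (3 + 1)) c).mul (isHomogeneous_X ℂ i)
  exact (isHomogeneous_X ℂ 3).sub (((h t 0).add (h a 1)).add (h b 2))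

theorem t_SEP (hPT : S_PT) (hIRR : S_IRR) (hNODE : S_NODE) (hPR : S_PR) (hHF : S_HF) :
    S_SEP := by
  intro d F hd hF n hn ρ hρ
  obtain ⟨t, a, b, h0, h1, hB⟩ := hPT d F hd hF
  obtain ⟨hI, hIh, hP, hPh, hpl⟩ := hPR d F t a b hF.1 (hIRR d _ hd hB)
  have hF0 : F ≠ 0 := by rintro rfl; simp at h1
  have hd0 : (0 : ℝ) < d := by positivity
  have hgr := growth hHF hF.1 hF0
  obtain ⟨hsm, hnode⟩ := hNODE d F t a b hd hF.1 h0 h1 hB
  have hwI : ∀ f ∈ Ideal.span {F}, eval (pt t) f = 0 := by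
    intro f hf
    obtain ⟨g, rfl⟩ := Ideal.mem_span_singleton'.1 hf
    rw [map_mul, h0, mul_zero]
  have hℓ : (X 0 : R4).IsHomogeneous 1 := isHomogeneous_X ℂ 0
  obtain ⟨x, hx, hxw⟩ := Pool.Agent.TH508.NS.exists_formalNode hI hIh hd0 hgr hℓ hwI
    (by simp [pt]) hsm hnode
  obtain ⟨V, hV⟩ := Pool.Agent.TH13.NB.exists_nodal (Ideal.span {F})
    (Ideal.span {F} ⊔ Ideal.span {pl t a b}) hI hIh hd0 hgr (le_refl 1) hℓ (pl_hom t a b) hpl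
    hP hPh ⟨0, fun t _ f _ => Iff.rfl⟩ hx
  have hd1 : (1 : ℝ) ≤ d := by exact_mod_cast (by omega : 1 ≤ d)
  have hδ1 : (1 : ℝ) ≤ ((1 : ℕ) : ℝ) ^ 2 * (d : ℝ) := by push_cast; linarith
  have hn1 : ((1 : ℕ) : ℝ) ^ 2 * (d : ℝ) ≤ n := by
    push_cast
    have : (d : ℝ) ≤ n := by exact_mod_cast hn
    linarith
  obtain ⟨s0, hs0⟩ := Pool.Agent.TH836.NS.core V hδ1 hn1 hρ
  refine ⟨s0, fun s hs E hE => ?_⟩
  have hsm' : Module.finrank ℂ (R4 ⧸ (Ideal.span {F} ⊔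
      (mw fun i => Pool.Agent.TH836.NS.cc (x i) 0 0) ^ 2)) = 4 := by
    rw [show (fun i => Pool.Agent.TH836.NS.cc (x i) 0 0) = pt t from funext hxw]
    exact hsm
  obtain ⟨w, h2, h3, h4⟩ := Pool.Agent.TH836.NS.sep_of_LC (Ideal.span {F}) hIh hℓ hx hsm' V hV
    (hs0 s hs E hE)
  exact ⟨w, fun q => by simpa using h2 q, fun q => h3 q F (Ideal.mem_span_singleton_self F), h4⟩

end Pool.Agent.TH852.SP
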