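import Pool.Agent.TH852.SP.Main
import Pool.Agent.TH852.SP.SepV
import Pool.Agent.TH22.VS.TR
import Pool.Agent.TH736.VS.PR
import Pool.Agent.TH370.SP.HF
import Pool.Agent.TH374.VS.Loc
import Pool.Agent.TH283.SP.INEQ

namespace Pool.Agent.TH852.SP

theorem fin2_of (hPT : S_PT) (hIRR : S_IRR) (hNODE : S_NODE) (hIND : S_IND) : S_FIN2 :=
  t_FIN hPT hIRR Pool.Agent.TH736.VS.t_PR Pool.Agent.TH370.SP.t_HF
    (Pool.Agent.TH283.SP.t_INEQ Pool.Agent.TH374.VSL.t_LOC) hIND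
    (t_SEP hPT hIRR hNODE Pool.Agent.TH736.VS.t_PR Pool.Agent.TH370.SP.t_HF)

end Pool.Agent.TH852.SP
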