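import Pool.Agent.TH852.SP.Num
import Pool.Agent.W607.General

namespace Pool.Agent.TH852.SP

open MvPolynomial Filter Topology Pool.Agent.W607

theorem exists_G {n : ℕ} {F : R4} {e : ℕ} {m : Fin n → ℕ} {w : Fin n → Fin (3 + 1) → ℂ}
    (h : series F e m w ≠ ⊥) :
    ∃ G : R4, G.IsHomogeneous e ∧ G ∉ Ideal.span {F} ∧ ∀ q, G ∈ JJ F (w q) (m q) := by
  obtain ⟨g, hg, hg0⟩ := Submodule.exists_mem_ne_zero_of_ne_bot h
  obtain ⟨G, hG, rfl⟩ := Submodule.mem_map.1 hg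
  obtain ⟨h1, h2⟩ := Submodule.mem_inf.1 hG
  refine ⟨G, h1, fun hGF => hg0 ?_, fun q => ?_⟩
  · exact Ideal.Quotient.eq_zero_iff_mem.2 hGF
  · have h3 : G ∈ (⨅ q, JJ F (w q) (m q)) := h2
    rw [Ideal.mem_iInf] at h3
    exact h3 q

/-- (FIN2) the final theorem with distinct points. -/
def S_FIN2 : Prop := ∀ (d : ℕ) (F : R4), 3 ≤ d → VG d F → ∀ r : ℕ, d ≤ r →
  ∃ H : ℕ → MvPolynomial (Fin r × Fin (3 + 1)) ℂ,
    (∀ k, ∃ w : Fin r → Fin (3 + 1) → ℂ, (∀ q, w q 0 = 1) ∧ (∀ q, eval (w q) F = 0) ∧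
      eval (fun p => w p.1 p.2) (H k) ≠ 0) ∧
    ∀ w : Fin r → Fin (3 + 1) → ℂ, (∀ q, w q 0 = 1) → (∀ q, eval (w q) F = 0) →
      (∀ k, eval (fun p => w p.1 p.2) (H k) ≠ 0) →
      Function.Injective w ∧
      (∀ (e : ℕ) (m : Fin r → ℕ), series F e m w ≠ ⊥ →
        (∑ q, (m q : ℝ)) ≤ √(r * d : ℝ) * e) ∧
      (∀ ε : ℝ, 0 < ε → ∃ m0 : ℕ, ∀ M : ℕ, m0 ≤ M → ∀ e : ℕ,
        (1 + ε) * √(r : ℝ) * M ≤ √(d : ℝ) * e → ∀ m : Fin r → ℕ, (∀ q, m q ≤ M) →
        Module.finrank ℂ (series F e m w) + ∑ q, (m q + 1).choose 2 =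
          hilb (Ideal.span {F}) e)

theorem t_FIN (hPT : S_PT) (hIRR : S_IRR) (hPR : S_PR) (hHF : S_HF) (hINEQ : S_INEQ)
    (hIND : S_IND) (hSEP : S_SEP) : S_FIN2 := by
  classical
  intro d F hd hF r hr
  obtain ⟨t, a, b, h0, h1, hB⟩ := hPT d F hd hF
  obtain ⟨hI, -, -, -, -⟩ := hPR d F t a b hF.1 (hIRR d _ hd hB)
  have hF0 : F ≠ 0 := by rintro rfl; simp at h1
  have hd0 : (0 : ℝ) < d := by positivity
  have hr0 : (0 : ℝ) < r := lt_of_lt_of_le hd0 (by exact_mod_cast hr)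
  -- the open conditions
  let Pr : ℕ → ℕ → Prop := fun E s => ∃ w : Fin r → Fin (3 + 1) → ℂ, (∀ q, w q 0 = 1) ∧
    (∀ q, eval (w q) F = 0) ∧ Sep (Ideal.span {F}) (X 0) E s w
  have hop : ∀ E s : ℕ, ∃ H : MvPolynomial (Fin r × Fin (3 + 1)) ℂ,
      (∃ w : Fin r → Fin (3 + 1) → ℂ, (∀ q, w q 0 = 1) ∧ (∀ q, eval (w q) F = 0) ∧
        eval (fun p => w p.1 p.2) H ≠ 0) ∧
      (Pr E s → ∀ w : Fin r → Fin (3 + 1) → ℂ, eval (fun p => w p.1 p.2) H ≠ 0 →
        Sep (Ideal.span {F}) (X 0) E s w) := by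
    intro E s
    by_cases h : Pr E s
    · obtain ⟨w, hw1, hw2, hw3⟩ := h
      obtain ⟨H, hH1, hH2⟩ := hw3.exists_open
      exact ⟨H, ⟨w, hw1, hw2, hH1⟩, fun _ => hH2⟩
    · refine ⟨1, ⟨fun _ => pt t, fun _ => by simp [pt], fun _ => h0, by simp⟩, fun h' => absurd h' h⟩
  choose H hH1 hH2 using hop
  let Hs : MvPolynomial (Fin r × Fin (3 + 1)) ℂ :=
    ∏ q : Fin r, rename (fun i => (q, i)) (pderiv 3 F)
  have hHs : ∀ w : Fin r → Fin (3 + 1) → ℂ,
      eval (fun p => w p.1 p.2) Hs = ∏ q, eval (w q) (pderiv 3 F) := by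
    intro w
    rw [map_prod]
    refine Finset.prod_congr rfl fun q _ => ?_
    rw [eval_rename]; rfl
  let HH : ℕ → MvPolynomial (Fin r × Fin (3 + 1)) ℂ := fun k =>
    if k = 0 then Hs else H (Nat.unpair (k - 1)).1 (Nat.unpair (k - 1)).2
  have hHH : ∀ E s, HH (Nat.pair E s + 1) = H E s := by
    intro E s
    simp only [HH]
    rw [if_neg (Nat.succ_ne_zero _), Nat.add_sub_cancel, Nat.unpair_pair]
  refine ⟨HH, fun k => ?_, fun w hw1 hw2 hw => ?_⟩
  · rcases Nat.eq_zero_or_pos k with rfl | hk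
    · refine ⟨fun _ => pt t, fun _ => by simp [pt], fun _ => h0, ?_⟩
      simp only [HH, if_true]
      rw [show eval (fun p : Fin r × Fin (3 + 1) => pt t p.2) Hs = ∏ _q : Fin r,
        eval (pt t) (pderiv 3 F) from hHs (fun _ => pt t), Finset.prod_ne_zero_iff]
      exact fun q _ => h1
    · obtain ⟨w, a1, a2, a3⟩ := hH1 (Nat.unpair (k - 1)).1 (Nat.unpair (k - 1)).2
      refine ⟨w, a1, a2, ?_⟩
      simp only [HH]
      rw [if_neg hk.ne']
      exact a3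
  have hsm : ∀ q, ∃ i : Fin (3 + 1), i ≠ 0 ∧ eval (w q) (pderiv i F) ≠ 0 := by
    intro q
    have h2 := hw 0
    simp only [HH, if_true] at h2
    rw [hHs, Finset.prod_ne_zero_iff] at h2
    exact ⟨3, by decide, h2 q (Finset.mem_univ q)⟩
  have hsep : ∀ E s, Pr E s → Sep (Ideal.span {F}) (X 0) E s w := by
    intro E s h
    have h2 := hw (Nat.pair E s + 1)
    rw [hHH] at h2
    exact hH2 E s h w h2
  refine ⟨?_, fun e m hne => ?_, fun ε hε => ?_⟩
  · obtain ⟨s0, hs0⟩ := hSEP d F hd hF r hr 2 (by norm_num)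
    obtain ⟨E, hE⟩ := exists_nat_ge (2 * (√(r : ℝ) * ((s0 + 1 : ℕ) : ℝ)) / √(d : ℝ))
    have hqd : 0 < √(d : ℝ) := Real.sqrt_pos.2 hd0
    rw [div_le_iff₀ hqd] at hE
    have h2 := hsep E (s0 + 1) (hs0 (s0 + 1) (Nat.le_succ _) E (by linarith))
    refine h2.injective (Nat.succ_ne_zero _) (fun q => by simpa using hw1 q) (fun q f hf => ?_)
    obtain ⟨g, rfl⟩ := Ideal.mem_span_singleton'.1 hf
    rw [map_mul, hw2 q, mul_zero]
  · obtain ⟨G, hG1, hG2, hG3⟩ := exists_G hne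
    set A : ℝ := √(r * d : ℝ) * e with hA
    have key : ∀ ρ : ℝ, 1 < ρ → (∑ q, (m q : ℝ)) ≤ ρ * A := by
      intro ρ hρ
      obtain ⟨s0, hs0⟩ := hSEP d F hd hF r hr ρ hρ
      by_contra hcon
      push Not at hcon
      set D : ℝ := (∑ q, (m q : ℝ)) - ρ * A with hD
      have hDpos : 0 < D := by rw [hD]; linarith
      set K : ℝ := 3 * d * e + ∑ q, ((m q).choose 2 : ℝ) with hK
      obtain ⟨s1, hs1⟩ := exists_nat_gt (K / D)
      set s : ℕ := max (max s0 s1) (max (∑ q, m q) ((d + e) * (d + e) + 1)) with hs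
      have a1 : s0 ≤ s := (le_max_left _ _).trans (le_max_left _ _)
      have a2 : s1 ≤ s := (le_max_right _ _).trans (le_max_left _ _)
      have a3 : ∑ q, m q ≤ s := (le_max_left _ _).trans (le_max_right _ _)
      have a4 : (d + e) * (d + e) + 1 ≤ s := (le_max_right _ _).trans (le_max_right _ _)
      have hqd : 0 < √(d : ℝ) := Real.sqrt_pos.2 hd0
      have hqr : 0 < √(r : ℝ) := Real.sqrt_pos.2 hr0
      set E : ℕ := ⌈ρ * (√(r : ℝ) * s) / √(d : ℝ)⌉₊ with hE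
      have hE1 : ρ * (√(r : ℝ) * s) ≤ √(d : ℝ) * E := by
        have := Nat.le_ceil (ρ * (√(r : ℝ) * s) / √(d : ℝ))
        rw [div_le_iff₀ hqd] at this
        linarith
      have hE2 : (E : ℝ) ≤ ρ * (√(r : ℝ) * s) / √(d : ℝ) + 1 :=
        (Nat.ceil_lt_add_one (by positivity)).le
      have hE3 : s ≤ E := by
        have h2 : √(d : ℝ) ≤ √(r : ℝ) := Real.sqrt_le_sqrt (by exact_mod_cast hr)
        have h3 : √(d : ℝ) * s ≤ √(d : ℝ) * E := by
          calc √(d : ℝ) * s ≤ √(r : ℝ) * s := by gcongr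
            _ ≤ ρ * (√(r : ℝ) * s) := by
              have : 0 ≤ √(r : ℝ) * s := by positivity
              nlinarith
            _ ≤ √(d : ℝ) * E := hE1
        exact_mod_cast le_of_mul_le_mul_left h3 hqd
      have hdeE : d + e ≤ E := by nlinarith
      have hI2 := hINEQ F r E s e w m G hI hw1 hw2 hsm (hsep E s (hs0 s a1 E hE1))
        (fun q => (Finset.single_le_sum (f := m) (fun i _ => Nat.zero_le _)
          (Finset.mem_univ q)).trans a3) (by omega) hG1 hG2 hG3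
      have hdf := hilb_diff hHF hF.1 hF0 hdeE
      have hI3 : (∑ q, (m q : ℝ)) * s + hilb (Ideal.span {F}) (E - e) ≤
          hilb (Ideal.span {F}) E + ∑ q, ((m q).choose 2 : ℝ) := by
        have : ((((∑ q, m q * s) + hilb (Ideal.span {F}) (E - e) : ℕ)) : ℝ) ≤
          ((hilb (Ideal.span {F}) E + ∑ q, (m q).choose 2 : ℕ) : ℝ) := by exact_mod_cast hI2
        push_cast at this
        rw [Finset.sum_mul]
        exact this
      have h5 : (∑ q, (m q : ℝ)) * s ≤ d * e * E + 2 * d * e + ∑ q, ((m q).choose 2 : ℝ) := by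
        linarith
      have h6 : (d : ℝ) * e * E ≤ ρ * A * s + d * e := by
        have h7 : (d : ℝ) * e * E ≤ d * e * (ρ * (√(r : ℝ) * s) / √(d : ℝ) + 1) := by gcongr
        have h8 : (d : ℝ) = √(d : ℝ) * √(d : ℝ) := (Real.mul_self_sqrt hd0.le).symm
        have h9 : (d : ℝ) * e * (ρ * (√(r : ℝ) * s) / √(d : ℝ) + 1) = ρ * A * s + d * e := by
          rw [hA, Real.sqrt_mul hr0.le]
          have : (d : ℝ) * e * (ρ * (√(r : ℝ) * s) / √(d : ℝ)) =
              (d / √(d : ℝ)) * (e * (ρ * (√(r : ℝ) * s))) := by ring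
          rw [mul_add, this, Real.div_sqrt]
          ring
        linarith
      have h7 : D * s ≤ K := by
        have : D * s = (∑ q, (m q : ℝ)) * s - ρ * A * s := by rw [hD]; ring
        rw [this, hK]; linarith
      have h8 : K < D * s := by
        have h9 : K / D < s := hs1.trans_le (by exact_mod_cast a2)
        rw [div_lt_iff₀ hDpos] at h9
        linarith
      linarith
    have h2 : Tendsto (fun k : ℕ => (1 + 1 / ((k : ℝ) + 1)) * A) atTop (𝓝 ((1 + 0) * A)) :=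
      (tendsto_const_nhds.add tendsto_one_div_add_atTop_nhds_zero_nat).mul_const _
    rw [add_zero, one_mul] at h2
    refine ge_of_tendsto' h2 fun k => key _ ?_
    have : (0 : ℝ) < 1 / ((k : ℝ) + 1) := by positivity
    linarith
  · obtain ⟨s0, hs0⟩ := hSEP d F hd hF r hr (1 + ε) (by linarith)
    refine ⟨s0, fun M hM e he m hm => ?_⟩
    exact hIND F r e M w m hw1 hw2 hsm
      (hsep e M (hs0 M hM e (by rw [← mul_assoc]; exact he))) hm

end Pool.Agent.TH852.SP
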