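import Pool.Agent.TH623.VS.Node

namespace Pool.Agent.TH852.SP

open MvPolynomial Pool.Agent.W607 Pool.Agent.TH623.VS

/-- the product of the planes `x_c = i x_0`, `i < k`. -/
noncomputable def PA (c : Fin (3 + 1)) (k : ℕ) : R4 := ∏ i : Fin k, (X c - C ((i : ℕ) : ℂ) * X 0)

theorem lin_hom (c : Fin (3 + 1)) (a : ℂ) : (X c - C a * X 0 : R4).IsHomogeneous 1 := by
  have h : (C a * X 0 : R4).IsHomogeneous 1 := by
    simpa using (isHomogeneous_C (Fin (3 + 1)) a).mul (isHomogeneous_X ℂ (0 : Fin (3 + 1)))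
  exact (isHomogeneous_X ℂ c).sub h

theorem PA_hom (c : Fin (3 + 1)) (k : ℕ) : (PA c k).IsHomogeneous k := by
  have h := IsHomogeneous.prod (Finset.univ : Finset (Fin k))
    (fun i : Fin k => (X c - C ((i : ℕ) : ℂ) * X 0 : R4)) (fun _ => 1) (fun i _ => lin_hom c _)
  rw [Finset.sum_const, Finset.card_univ, Fintype.card_fin, smul_eq_mul, mul_one] at h
  exact h

/-- data at a point: `A`, `B` vanish at `w`, and the gradients of `x_0`, `A`, `B`, `F` are
independent in triangular form -/
structure Tri (F A B : R4) (w : Fin (3 + 1) → ℂ) : Prop where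
  w0 : w 0 = 1
  F0 : eval w F = 0
  A0 : eval w A = 0
  B0 : eval w B = 0
  F3 : eval w (pderiv 3 F) ≠ 0
  A1 : eval w (pderiv 1 A) ≠ 0
  A2 : eval w (pderiv 2 A) = 0
  A3 : eval w (pderiv 3 A) = 0
  B1 : eval w (pderiv 1 B) = 0
  B2 : eval w (pderiv 2 B) ≠ 0
  B3 : eval w (pderiv 3 B) = 0

variable {F A B : R4} {w : Fin (3 + 1) → ℂ}

theorem JJ_mono {s t : ℕ} (h : s ≤ t) : JJ F w t ≤ JJ F w s :=
  sup_le_sup_left (Ideal.pow_le_pow_right h) _

theorem mul_JJ {x y : R4} {s t : ℕ} (hx : x ∈ JJ F w s) (hy : y ∈ JJ F w t) :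
    x * y ∈ JJ F w (s + t) := by
  obtain ⟨x1, hx1, x2, hx2, rfl⟩ := Submodule.mem_sup.1 hx
  obtain ⟨y1, hy1, y2, hy2, rfl⟩ := Submodule.mem_sup.1 hy
  have e : (x1 + x2) * (y1 + y2) = (x1 * (y1 + y2) + x2 * y1) + x2 * y2 := by ring
  rw [e]
  refine Submodule.add_mem_sup ?_ ?_
  · exact Ideal.add_mem _ (Ideal.mul_mem_right _ _ hx1) (Ideal.mul_mem_left _ _ hy1)
  · rw [pow_add]; exact Ideal.mul_mem_mul hx2 hy2

theorem mw_le_JJ : mw w ≤ JJ F w 1 := by
  rw [JJ, pow_one]; exact le_sup_right

/-- first order: an element of the maximal ideal is `a A + b B` modulo `JJ 2` -/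
theorem first_order (h : Tri F A B w) {x : R4} (hx : x ∈ mw w) :
    ∃ a b : ℂ, x - (C a * A + C b * B) ∈ JJ F w 2 := by
  have hF3 := h.F3
  have hA1 := h.A1
  have hB2 := h.B2
  obtain ⟨c, hc⟩ : ∃ c : ℂ, eval w (pderiv 3 x) = c * eval w (pderiv 3 F) :=
    ⟨_, (div_mul_cancel₀ _ hF3).symm⟩
  obtain ⟨a, ha⟩ : ∃ a : ℂ, eval w (pderiv 1 x) - c * eval w (pderiv 1 F) = a * eval w (pderiv 1 A) :=
    ⟨_, (div_mul_cancel₀ _ hA1).symm⟩
  obtain ⟨b, hb⟩ : ∃ b : ℂ, eval w (pderiv 2 x) - c * eval w (pderiv 2 F) = b * eval w (pderiv 2 B) :=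
    ⟨_, (div_mul_cancel₀ _ hB2).symm⟩
  set e : ℂ := eval w (pderiv 0 x) - c * eval w (pderiv 0 F) - a * eval w (pderiv 0 A) -
    b * eval w (pderiv 0 B) with he
  refine ⟨a, b, ?_⟩
  have h2 : x - (C a * A + C b * B) - C c * F - C e * (X 0 - 1) ∈ (mw w) ^ 2 := by
    rw [mem_sq_iff]
    refine ⟨?_, fun i => ?_⟩
    · simp only [map_sub, map_add, map_mul, eval_C, eval_X, h.A0, h.B0, h.F0, h.w0, mw_eval hx,
        map_one]
      ring
    · fin_cases i
      · simp only [Fin.zero_eta, map_sub, map_add, Derivation.leibniz, pderiv_C, smul_eq_mul,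
          map_mul, eval_C, eval_X, pderiv_X_self, map_one, map_zero, pderiv_one, mul_zero, add_zero]
        rw [he]; ring
      · have h1 : pderiv (1 : Fin (3 + 1)) (X 0 : R4) = 0 := by
          rw [pderiv_X]; exact Pi.single_eq_of_ne (by decide) _
        simp only [Fin.mk_one, map_sub, map_add, Derivation.leibniz, pderiv_C, smul_eq_mul,
          map_mul, eval_C, eval_X, h1, map_one, map_zero, pderiv_one, mul_zero, add_zero, h.B1]
        linear_combination ha
      · have h1 : pderiv (2 : Fin (3 + 1)) (X 0 : R4) = 0 := by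
          rw [pderiv_X]; exact Pi.single_eq_of_ne (by decide) _
        simp only [Fin.reduceFinMk, map_sub, map_add, Derivation.leibniz, pderiv_C, smul_eq_mul,
          map_mul, eval_C, eval_X, h1, map_one, map_zero, pderiv_one, mul_zero, add_zero, h.A2]
        linear_combination hb
      · have h1 : pderiv (3 : Fin (3 + 1)) (X 0 : R4) = 0 := by
          rw [pderiv_X]; exact Pi.single_eq_of_ne (by decide) _
        simp only [Fin.reduceFinMk, map_sub, map_add, Derivation.leibniz, pderiv_C, smul_eq_mul,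
          map_mul, eval_C, eval_X, h1, map_one, map_zero, pderiv_one, mul_zero, add_zero, h.A3, h.B3]
        linear_combination hc
  have h3 : x - (C a * A + C b * B) = (C c * F + C e * (X 0 - 1)) +
      (x - (C a * A + C b * B) - C c * F - C e * (X 0 - 1)) := by ring
  rw [h3]
  refine Submodule.add_mem_sup (Submodule.add_mem_sup ?_ ?_) h2
  · exact Ideal.mul_mem_left _ _ (Ideal.mem_span_singleton_self _)
  · exact Ideal.mul_mem_left _ _ (Ideal.mem_span_singleton_self _)

/-- order `s`: an element of `JJ s` is a combination of the `A ^ j B ^ (s - j)` modulo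
`JJ (s + 1)` -/
theorem order_s (h : Tri F A B w) (s : ℕ) : ∀ {x : R4}, x ∈ JJ F w s →
    ∃ γ : ℕ → ℂ, x - ∑ j ∈ Finset.range (s + 1), C (γ j) * (A ^ j * B ^ (s - j)) ∈
      JJ F w (s + 1) := by
  have hA : A ∈ mw w := mem_mw_of_eval h.A0
  have hB : B ∈ mw w := mem_mw_of_eval h.B0
  induction s with
  | zero =>
    intro x _
    refine ⟨fun _ => eval w x, ?_⟩
    have h1 : x - C (eval w x) ∈ mw w := mem_mw_of_eval (by simp)
    have h2 := mw_le_JJ (F := F) h1
    simpa using h2
  | succ s ih =>
    -- it suffices to treat products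
    have key : ∀ x ∈ (mw w) ^ (s + 1), ∃ γ : ℕ → ℂ,
        x - ∑ j ∈ Finset.range (s + 2), C (γ j) * (A ^ j * B ^ (s + 1 - j)) ∈
          JJ F w (s + 2) := by
      intro x hx
      rw [pow_succ'] at hx
      refine Submodule.mul_induction_on hx ?_ ?_
      · intro u hu v hv
        obtain ⟨a, b, hab⟩ := first_order h hu
        obtain ⟨γ, hγ⟩ := ih (x := v) (Ideal.mem_sup_right hv)
        set S : R4 := ∑ j ∈ Finset.range (s + 1), C (γ j) * (A ^ j * B ^ (s - j)) with hS
        have hSm : S ∈ JJ F w s := by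
          refine Ideal.sum_mem _ fun j hj => Ideal.mul_mem_left _ _ ?_
          have hj' : j ≤ s := Nat.lt_succ_iff.1 (Finset.mem_range.1 hj)
          refine Ideal.mem_sup_right ?_
          have : (mw w) ^ s = (mw w) ^ j * (mw w) ^ (s - j) := by
            rw [← pow_add, Nat.add_sub_cancel' hj']
          rw [this]
          exact Ideal.mul_mem_mul (Ideal.pow_mem_pow hA _) (Ideal.pow_mem_pow hB _)
        refine ⟨fun j => (if j = 0 then 0 else a * γ (j - 1)) + (if j = s + 1 then 0 else b * γ j), ?_⟩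
        have e1 : (C a * A + C b * B) * S = ∑ j ∈ Finset.range (s + 2),
            C ((if j = 0 then 0 else a * γ (j - 1)) + (if j = s + 1 then 0 else b * γ j)) *
              (A ^ j * B ^ (s + 1 - j)) := by
          have e2 : ∑ j ∈ Finset.range (s + 2), C (if j = 0 then 0 else a * γ (j - 1)) *
              (A ^ j * B ^ (s + 1 - j)) = C a * A * S := by
            rw [Finset.sum_range_succ', hS, Finset.mul_sum]
            simp only [if_true, map_zero, zero_mul, add_zero, Nat.succ_ne_zero, if_false,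
              Nat.add_sub_cancel]
            refine Finset.sum_congr rfl fun j hj => ?_
            rw [Nat.add_sub_add_right, map_mul, pow_succ]
            ring
          have e3 : ∑ j ∈ Finset.range (s + 2), C (if j = s + 1 then 0 else b * γ j) *
              (A ^ j * B ^ (s + 1 - j)) = C b * B * S := by
            rw [Finset.sum_range_succ, hS, Finset.mul_sum]
            simp only [if_true, map_zero, zero_mul, add_zero]
            refine Finset.sum_congr rfl fun j hj => ?_
            have hj' : j < s + 1 := Finset.mem_range.1 hj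
            rw [if_neg (by omega), map_mul, show s + 1 - j = (s - j) + 1 from by omega, pow_succ]
            ring
          simp only [map_add, add_mul, Finset.sum_add_distrib]
          rw [e2, e3]
        rw [← e1]
        have e4 : u * v - (C a * A + C b * B) * S =
            (u - (C a * A + C b * B)) * S + u * (v - S) := by ring
        rw [e4]
        refine Ideal.add_mem _ ?_ ?_
        · have := mul_JJ hab hSm
          rwa [show 2 + s = s + 2 from by ring] at this
        · have := mul_JJ (mw_le_JJ (F := F) hu) hγ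
          rwa [show 1 + (s + 1) = s + 2 from by ring] at this
      · rintro x y ⟨γ, hγ⟩ ⟨γ', hγ'⟩
        refine ⟨fun j => γ j + γ' j, ?_⟩
        have := Ideal.add_mem _ hγ hγ'
        convert this using 1
        simp only [map_add, add_mul, Finset.sum_add_distrib]
        ring
    intro x hx
    obtain ⟨x1, hx1, x2, hx2, rfl⟩ := Submodule.mem_sup.1 hx
    obtain ⟨γ, hγ⟩ := key x2 hx2
    refine ⟨γ, ?_⟩
    rw [add_sub_assoc]
    exact Ideal.add_mem _ (Ideal.mem_sup_left hx1) hγ

end Pool.Agent.TH852.SP
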