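import Pool.Agent.TH852.SP.Grid

namespace Pool.Agent.TH852.SP

open MvPolynomial Pool.Agent.W607 Pool.Agent.TH623.VS

variable {F A B : R4}

/-- jets of order `s` at all points from interpolation of values -/
theorem jets {ι : Type} [Finite ι] {w : ι → Fin (3 + 1) → ℂ} {k D0 : ℕ}
    (hA : A.IsHomogeneous k) (hB : B.IsHomogeneous k) (h : ∀ q, Tri F A B (w q))
    (hint : ∀ D, D0 ≤ D → ∀ γ : ι → ℂ, ∃ g : R4, g.IsHomogeneous D ∧ ∀ q, eval (w q) g = γ q)
    (s : ℕ) : ∀ E : ℕ, (s = 0 ∨ k * (s - 1) + D0 ≤ E) → ∀ f : ι → R4,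
      ∃ G : R4, G.IsHomogeneous E ∧ ∀ q, G - f q ∈ JJ F (w q) s := by
  induction s with
  | zero =>
    intro E _ f
    refine ⟨0, isHomogeneous_zero _ _ _, fun q => ?_⟩
    rw [JJ, pow_zero, Ideal.one_eq_top, sup_top_eq]
    trivial
  | succ s ih =>
    intro E hE f
    have hE' : k * s + D0 ≤ E := by
      rcases hE with h | h
      · omega
      · simpa using h
    have hE1 : s = 0 ∨ k * (s - 1) + D0 ≤ E := by
      rcases Nat.eq_zero_or_pos s with h | h
      · exact Or.inl h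
      · exact Or.inr ((Nat.add_le_add_right (Nat.mul_le_mul_left k (Nat.sub_le s 1)) D0).trans hE')
    obtain ⟨G1, hG1, hG1'⟩ := ih E hE1 f
    have h1 : ∀ q, f q - G1 ∈ JJ F (w q) s := fun q => by
      have := Ideal.neg_mem_iff _ |>.2 (hG1' q)
      rwa [neg_sub] at this
    choose γ hγ using fun q => order_s (h q) s (h1 q)
    choose g hg1 hg2 using fun j : ℕ => hint (E - k * s) (by omega) (fun q => γ q j)
    refine ⟨G1 + ∑ j ∈ Finset.range (s + 1), A ^ j * B ^ (s - j) * g j, ?_, fun q => ?_⟩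
    · refine hG1.add (IsHomogeneous.sum _ _ _ fun j hj => ?_)
      have hj' : j ≤ s := Nat.lt_succ_iff.1 (Finset.mem_range.1 hj)
      have h2 := ((hA.pow j).mul (hB.pow (s - j))).mul (hg1 j)
      have h3 : k * j + k * (s - j) + (E - k * s) = E := by
        rw [← Nat.mul_add, Nat.add_sub_cancel' hj']; omega
      rwa [h3] at h2
    · have hAm : A ∈ mw (w q) := mem_mw_of_eval (h q).A0
      have hBm : B ∈ mw (w q) := mem_mw_of_eval (h q).B0
      have e1 : G1 + ∑ j ∈ Finset.range (s + 1), A ^ j * B ^ (s - j) * g j - f q =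
          -(f q - G1 - ∑ j ∈ Finset.range (s + 1), C (γ q j) * (A ^ j * B ^ (s - j))) +
          ∑ j ∈ Finset.range (s + 1), A ^ j * B ^ (s - j) * (g j - C (γ q j)) := by
        have e2 : ∑ j ∈ Finset.range (s + 1), A ^ j * B ^ (s - j) * (g j - C (γ q j)) =
            ∑ j ∈ Finset.range (s + 1), A ^ j * B ^ (s - j) * g j -
            ∑ j ∈ Finset.range (s + 1), C (γ q j) * (A ^ j * B ^ (s - j)) := by
          rw [← Finset.sum_sub_distrib]
          exact Finset.sum_congr rfl fun j _ => by ring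
        rw [e2]; ring
      rw [e1]
      refine Ideal.add_mem _ ((Ideal.neg_mem_iff _).2 (hγ q)) (Ideal.sum_mem _ fun j hj => ?_)
      have hj' : j ≤ s := Nat.lt_succ_iff.1 (Finset.mem_range.1 hj)
      refine Ideal.mem_sup_right ?_
      rw [pow_succ]
      refine Ideal.mul_mem_mul ?_ (mem_mw_of_eval (by simp [hg2 j q]))
      have : (mw (w q)) ^ s = (mw (w q)) ^ j * (mw (w q)) ^ (s - j) := by
        rw [← pow_add, Nat.add_sub_cancel' hj']
      rw [this]
      exact Ideal.mul_mem_mul (Ideal.pow_mem_pow hAm _) (Ideal.pow_mem_pow hBm _)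

/-- the points -/
noncomputable def gp {k d : ℕ} (t : Fin k → Fin k → Fin d → ℂ) (P : Fin k × Fin k × Fin d) :
    Fin (3 + 1) → ℂ := ![1, ((P.1 : ℕ) : ℂ), ((P.2.1 : ℕ) : ℂ), t P.1 P.2.1 P.2.2]

/-- interpolation at the points of the grid -/
theorem interp {k d : ℕ} (t : Fin k → Fin k → Fin d → ℂ)
    (ht : ∀ i j, Function.Injective (t i j)) (D : ℕ) (hD : 2 * (k - 1) + (d - 1) ≤ D)
    (γ : Fin k × Fin k × Fin d → ℂ) :
    ∃ g : R4, g.IsHomogeneous D ∧ ∀ P, eval (gp t P) g = γ P := by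
  classical
  let L : Fin k × Fin k × Fin d → R4 := fun P =>
    (∏ i ∈ Finset.univ.erase P.1, (X 1 - C ((i : ℕ) : ℂ) * X 0)) *
    (∏ j ∈ Finset.univ.erase P.2.1, (X 2 - C ((j : ℕ) : ℂ) * X 0)) *
    (∏ l ∈ Finset.univ.erase P.2.2, (X 3 - C (t P.1 P.2.1 l) * X 0)) *
    X 0 ^ (D - (2 * (k - 1) + (d - 1)))
  have hL : ∀ P, (L P).IsHomogeneous D := by
    intro P
    have hp : ∀ {n : ℕ} (c : Fin (3 + 1)) (a : Fin n → ℂ) (x : Fin n),
        (∏ i ∈ Finset.univ.erase x, (X c - C (a i) * X 0 : R4)).IsHomogeneous (n - 1) := by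
      intro n c a x
      have h := IsHomogeneous.prod (Finset.univ.erase x)
        (fun i : Fin n => (X c - C (a i) * X 0 : R4)) (fun _ => 1) (fun i _ => lin_hom c _)
      rw [Finset.sum_const, Finset.card_erase_of_mem (Finset.mem_univ x), Finset.card_univ,
        Fintype.card_fin, smul_eq_mul, mul_one] at h
      exact h
    have h1 := (((hp 1 (fun i => ((i : ℕ) : ℂ)) P.1).mul (hp 2 (fun i => ((i : ℕ) : ℂ)) P.2.1)).mul
      (hp 3 (fun l => t P.1 P.2.1 l) P.2.2)).mul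
      ((isHomogeneous_X ℂ (0 : Fin (3 + 1))).pow (D - (2 * (k - 1) + (d - 1))))
    have h2 : k - 1 + (k - 1) + (d - 1) + 1 * (D - (2 * (k - 1) + (d - 1))) = D := by omega
    rw [h2] at h1
    exact h1
  have he : ∀ P Q, eval (gp t Q) (L P) =
      (∏ i ∈ Finset.univ.erase P.1, ((((Q.1 : ℕ) : ℂ)) - ((i : ℕ) : ℂ))) *
      (∏ j ∈ Finset.univ.erase P.2.1, ((((Q.2.1 : ℕ) : ℂ)) - ((j : ℕ) : ℂ))) *
      (∏ l ∈ Finset.univ.erase P.2.2, (t Q.1 Q.2.1 Q.2.2 - t P.1 P.2.1 l)) := by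
    intro P Q
    simp only [L, map_mul, map_prod, map_sub, eval_X, eval_C, map_pow, gp]
    simp
  have hne : ∀ P, eval (gp t P) (L P) ≠ 0 := by
    intro P
    rw [he]
    refine mul_ne_zero (mul_ne_zero ?_ ?_) ?_
    · refine Finset.prod_ne_zero_iff.2 fun i hi => sub_ne_zero.2 fun h => ?_
      exact Finset.ne_of_mem_erase hi (Fin.ext (Nat.cast_injective h).symm)
    · refine Finset.prod_ne_zero_iff.2 fun i hi => sub_ne_zero.2 fun h => ?_
      exact Finset.ne_of_mem_erase hi (Fin.ext (Nat.cast_injective h).symm)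
    · refine Finset.prod_ne_zero_iff.2 fun l hl => sub_ne_zero.2 fun h => ?_
      exact Finset.ne_of_mem_erase hl (ht _ _ h).symm
  have hz : ∀ P Q, Q ≠ P → eval (gp t Q) (L P) = 0 := by
    intro P Q hQ
    rw [he]
    by_cases h1 : Q.1 = P.1
    · by_cases h2 : Q.2.1 = P.2.1
      · have h3 : Q.2.2 ≠ P.2.2 := fun h3 => hQ (Prod.ext h1 (Prod.ext h2 h3))
        rw [Finset.prod_eq_zero (s := Finset.univ.erase P.2.2) (i := Q.2.2)
          (Finset.mem_erase.2 ⟨h3, Finset.mem_univ _⟩) (by rw [h1, h2, sub_self]), mul_zero]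
      · rw [Finset.prod_eq_zero (s := Finset.univ.erase P.2.1) (i := Q.2.1)
          (Finset.mem_erase.2 ⟨h2, Finset.mem_univ _⟩) (sub_self _), mul_zero, zero_mul]
    · rw [Finset.prod_eq_zero (s := Finset.univ.erase P.1) (i := Q.1)
        (Finset.mem_erase.2 ⟨h1, Finset.mem_univ _⟩) (sub_self _), zero_mul, zero_mul]
  refine ⟨∑ P, C (γ P / eval (gp t P) (L P)) * L P, ?_, fun Q => ?_⟩
  · refine IsHomogeneous.sum _ _ _ fun P _ => ?_
    simpa using (isHomogeneous_C (Fin (3 + 1)) (γ P / eval (gp t P) (L P))).mul (hL P)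
  · rw [map_sum, Finset.sum_eq_single Q]
    · rw [map_mul, eval_C, div_mul_cancel₀ _ (hne Q)]
    · intro P _ hP
      rw [map_mul, hz P Q (Ne.symm hP), mul_zero]
    · intro h; exact absurd (Finset.mem_univ _) h

end Pool.Agent.TH852.SP
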