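import Pool.Agent.TH852.SP.Grid2
import Pool.Agent.TH852.SP.All

namespace Pool.Agent.TH852.SP

open MvPolynomial Pool.Agent.W607 Pool.Agent.TH623.VS

theorem pd {w : Fin (3 + 1) → ℂ} {L M : R4} (hL : eval w L = 0) (e : Fin (3 + 1)) :
    eval w (pderiv e (L * M)) = eval w (pderiv e L) * eval w M := by
  rw [Derivation.leibniz, map_add, smul_eq_mul, smul_eq_mul, map_mul, map_mul, hL]
  ring

theorem pd_lin (c e : Fin (3 + 1)) (he : e ≠ 0) (a : ℂ) :
    pderiv e (X c - C a * X 0 : R4) = if e = c then 1 else 0 := by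
  have h0 : pderiv e (X 0 : R4) = 0 := by
    rw [pderiv_X]; exact Pi.single_eq_of_ne he.symm _
  rw [map_sub, Derivation.leibniz, h0, pderiv_C, smul_zero, smul_zero, add_zero, sub_zero]
  split_ifs with h
  · subst h; exact pderiv_X_self _
  · rw [pderiv_X]; exact Pi.single_eq_of_ne (Ne.symm h) _

theorem PA_split (c : Fin (3 + 1)) {k : ℕ} (i : Fin k) :
    PA c k = (X c - C ((i : ℕ) : ℂ) * X 0) *
      ∏ i' ∈ Finset.univ.erase i, (X c - C ((i' : ℕ) : ℂ) * X 0) := by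
  unfold PA
  exact (Finset.mul_prod_erase Finset.univ
    (fun i' : Fin k => (X c - C ((i' : ℕ) : ℂ) * X 0 : R4)) (Finset.mem_univ i)).symm

theorem PA_ne {c : Fin (3 + 1)} {k : ℕ} (i : Fin k) {w : Fin (3 + 1) → ℂ} (h0 : w 0 = 1)
    (hc : w c = ((i : ℕ) : ℂ)) :
    eval w (∏ i' ∈ Finset.univ.erase i, (X c - C ((i' : ℕ) : ℂ) * X 0 : R4)) ≠ 0 := by
  classical
  rw [map_prod]
  refine Finset.prod_ne_zero_iff.2 fun i' hi' => ?_
  rw [map_sub, map_mul, eval_X, eval_X, eval_C, h0, hc, mul_one, sub_ne_zero]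
  intro h
  exact Finset.ne_of_mem_erase hi' (Fin.ext (Nat.cast_injective h).symm)

theorem tri_grid {F : R4} {k d : ℕ} (t : Fin k → Fin k → Fin d → ℂ)
    (P : Fin k × Fin k × Fin d) (hF0 : eval (gp t P) F = 0)
    (hF3 : eval (gp t P) (pderiv 3 F) ≠ 0) : Tri F (PA 1 k) (PA 2 k) (gp t P) := by
  have w0 : gp t P 0 = 1 := rfl
  have w1 : gp t P 1 = ((P.1 : ℕ) : ℂ) := rfl
  have w2 : gp t P 2 = ((P.2.1 : ℕ) : ℂ) := rfl
  have a0 : eval (gp t P) (X 1 - C ((P.1 : ℕ) : ℂ) * X 0 : R4) = 0 := by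
    rw [map_sub, map_mul, eval_X, eval_X, eval_C, w0, w1]; ring
  have b0 : eval (gp t P) (X 2 - C ((P.2.1 : ℕ) : ℂ) * X 0 : R4) = 0 := by
    rw [map_sub, map_mul, eval_X, eval_X, eval_C, w0, w2]; ring
  constructor
  · exact w0
  · exact hF0
  · rw [PA_split 1 P.1, map_mul, a0, zero_mul]
  · rw [PA_split 2 P.2.1, map_mul, b0, zero_mul]
  · exact hF3
  · rw [PA_split 1 P.1, pd a0, pd_lin 1 1 (by decide), if_pos rfl, map_one, one_mul]
    exact PA_ne P.1 w0 w1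
  · rw [PA_split 1 P.1, pd a0, pd_lin 1 2 (by decide), if_neg (by decide), map_zero, zero_mul]
  · rw [PA_split 1 P.1, pd a0, pd_lin 1 3 (by decide), if_neg (by decide), map_zero, zero_mul]
  · rw [PA_split 2 P.2.1, pd b0, pd_lin 2 1 (by decide), if_neg (by decide), map_zero, zero_mul]
  · rw [PA_split 2 P.2.1, pd b0, pd_lin 2 2 (by decide), if_pos rfl, map_one, one_mul]
    exact PA_ne P.2.1 w0 w2
  · rw [PA_split 2 P.2.1, pd b0, pd_lin 2 3 (by decide), if_neg (by decide), map_zero, zero_mul]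

/-- (ROOTS) simple roots over the integer points -/
def S_ROOTS : Prop := ∀ (d : ℕ) (F : R4), 3 ≤ d → VG d F → ∀ i j : ℕ, ∃ t : Fin d → ℂ,
  Function.Injective t ∧ ∀ l, eval ![1, (i : ℂ), (j : ℂ), t l] F = 0 ∧
    eval ![1, (i : ℂ), (j : ℂ), t l] (pderiv 3 F) ≠ 0

/-- separation of jets at `d k ^ 2` points -/
theorem sep_grid (hR : S_ROOTS) {d : ℕ} {F : R4} (hd : 3 ≤ d) (hF : VG d F) {k : ℕ}
    (hk : 1 ≤ k) : ∃ w : Fin (d * k ^ 2) → Fin (3 + 1) → ℂ, (∀ q, w q 0 = 1) ∧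
      (∀ q, eval (w q) F = 0) ∧
      ∀ s E : ℕ, k * s + k + d ≤ E + 3 → Sep (Ideal.span {F}) (X 0) E s w := by
  classical
  choose t ht1 ht2 using fun (i j : Fin k) => hR d F hd hF i j
  have hcard : Fintype.card (Fin k × Fin k × Fin d) = d * k ^ 2 := by
    simp only [Fintype.card_prod, Fintype.card_fin]; ring
  let e : Fin (d * k ^ 2) ≃ Fin k × Fin k × Fin d :=
    (Fintype.equivFinOfCardEq hcard).symm
  have hT : ∀ P : Fin k × Fin k × Fin d, Tri F (PA 1 k) (PA 2 k) (gp t P) := fun P =>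
    tri_grid t P (ht2 P.1 P.2.1 P.2.2).1 (ht2 P.1 P.2.1 P.2.2).2
  refine ⟨fun q => gp t (e q), fun q => rfl, fun q => (hT _).F0, fun s E hE => ?_⟩
  have hj := jets (F := F) (w := fun q => gp t (e q)) (k := k) (D0 := 2 * (k - 1) + (d - 1))
    (PA_hom 1 k) (PA_hom 2 k) (fun q => hT _) (fun D hD γ => by
      obtain ⟨g, hg1, hg2⟩ := interp t ht1 D hD (fun P => γ (e.symm P))
      exact ⟨g, hg1, fun q => by rw [hg2, e.symm_apply_apply]⟩) s E (by
      rcases Nat.eq_zero_or_pos s with h | h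
      · exact Or.inl h
      · refine Or.inr ?_
        obtain ⟨s', rfl⟩ := Nat.exists_eq_add_of_le' h
        have e5 : k * (s' + 1) = k * s' + k := by ring
        have e6 : k * (s' + 1) + k + d ≤ E + 3 := hE
        have e7 : s' + Nat.succ 0 - 1 = s' := rfl
        rw [e7]
        rw [e5] at e6
        omega)
  intro q f
  obtain ⟨G, hG1, hG2⟩ := hj (fun q' => if q' = q then f else 0)
  refine ⟨G, hG1, ?_, fun q' hq' => ?_⟩
  · have := hG2 q
    rw [if_pos rfl] at this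
    exact this
  · have := hG2 q'
    rw [if_neg hq', sub_zero] at this
    exact this

theorem hilb_eq {d : ℕ} {F : R4} (hF : F.IsHomogeneous d) (hF0 : F ≠ 0) (e : ℕ) :
    ((hilb (Ideal.span {F}) e : ℕ) : ℤ) = (e + 3).choose 3 - (e + 3 - d).choose 3 := by
  have h3 := Pool.Agent.TH370.SP.t_HF d F hF hF0
  have h5 : hilb (Ideal.span {F}) e + (e + 3 - d).choose 3 = (e + 3).choose 3 := by
    rcases lt_or_ge e d with h | h
    · have h6 : (e + 3 - d).choose 3 = 0 := Nat.choose_eq_zero_of_lt (by omega)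
      rw [h3.1 e h, h6, add_zero]
    · obtain ⟨u, rfl⟩ := Nat.exists_eq_add_of_le' h
      have h6 := h3.2 u
      rw [show u + d + 3 - d = u + 3 from by omega]
      exact h6
  rw [eq_sub_iff_add_eq]; exact_mod_cast h5

theorem Sep_inj {F : R4} {r E s : ℕ} (hs : 1 ≤ s) {w : Fin r → Fin (3 + 1) → ℂ}
    (hw : ∀ q, w q 0 = 1 ∧ eval (w q) F = 0) (h : Sep (Ideal.span {F}) (X 0) E s w) :
    Function.Injective w := by
  intro q q' hqq
  by_contra hne
  obtain ⟨G, -, hG2, hG3⟩ := h q 1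
  have hG4 := hG3 q' (Ne.symm hne)
  rw [← hqq] at hG4
  have h1 : (1 : R4) ∈ Ideal.span {F} ⊔ Ideal.span {X 0 - 1} ⊔ (mw (w q)) ^ s := by
    have := Ideal.sub_mem _ hG4 hG2
    rwa [sub_sub_cancel] at this
  have hle : Ideal.span {F} ⊔ Ideal.span {X 0 - 1} ⊔ (mw (w q)) ^ s ≤
      RingHom.ker (eval (w q) : R4 →+* ℂ) := by
    refine sup_le (sup_le ?_ ?_) ?_
    · rw [Ideal.span_singleton_le_iff_mem, RingHom.mem_ker]; exact (hw q).2
    · rw [Ideal.span_singleton_le_iff_mem, RingHom.mem_ker, map_sub, eval_X, map_one, (hw q).1,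
        sub_self]
    · refine (Ideal.pow_le_self (by omega)).trans ?_
      refine Ideal.span_le.2 ?_
      rintro _ ⟨i, rfl⟩
      change _ ∈ RingHom.ker (eval (w q) : R4 →+* ℂ)
      rw [RingHom.mem_ker]
      simp
  have h2 := hle h1
  rw [RingHom.mem_ker, map_one] at h2
  exact one_ne_zero h2

/-- separation of jets at `r ≤ d k ^ 2` points -/
theorem sep_sub (hR : S_ROOTS) {d : ℕ} {F : R4} (hd : 3 ≤ d) (hF : VG d F) {k : ℕ}
    (hk : 1 ≤ k) {r : ℕ} (hr : r ≤ d * k ^ 2) :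
    ∃ w : Fin r → Fin (3 + 1) → ℂ, (∀ q, w q 0 = 1) ∧ (∀ q, eval (w q) F = 0) ∧
      ∀ s E : ℕ, k * s + k + d ≤ E + 3 → Sep (Ideal.span {F}) (X 0) E s w := by
  obtain ⟨w0, h1, h2, h3⟩ := sep_grid hR hd hF hk
  refine ⟨fun q => w0 (Fin.castLE hr q), fun q => h1 _, fun q => h2 _, fun s E hE q f => ?_⟩
  obtain ⟨G, hG1, hG2, hG3⟩ := h3 s E hE (Fin.castLE hr q) f
  exact ⟨G, hG1, hG2, fun q' hq' => hG3 _ fun h => hq' (Fin.castLE_injective hr h)⟩

/-- the exact theorem at `r ≤ d k ^ 2` points -/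
theorem exact (hR : S_ROOTS) (d : ℕ) (hd : 3 ≤ d) (F : R4) (hF : VG d F) (k : ℕ) (hk : 1 ≤ k)
    (r : ℕ) (hr : r ≤ d * k ^ 2) :
    ∃ H : ℕ → MvPolynomial (Fin r × Fin (3 + 1)) ℂ,
      (∀ j, ∃ w : Fin r → Fin (3 + 1) → ℂ, (∀ q, w q 0 = 1 ∧ eval (w q) F = 0) ∧
        eval (fun p => w p.1 p.2) (H j) ≠ 0) ∧
      ∀ w : Fin r → Fin (3 + 1) → ℂ, (∀ q, w q 0 = 1 ∧ eval (w q) F = 0) →
        (∀ j, eval (fun p => w p.1 p.2) (H j) ≠ 0) →
        Function.Injective w ∧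
        (∀ M e : ℕ, k * M + k + d ≤ e + 3 → ∀ m : Fin r → ℕ, (∀ q, m q ≤ M) →
          (Module.finrank ℂ (series F e m w) : ℤ) =
            (e + 3).choose 3 - (e + 3 - d).choose 3 - ∑ q, ((m q + 1).choose 2 : ℤ)) ∧
        (r = d * k ^ 2 →
          ∀ (e : ℕ) (m : Fin r → ℕ), series F e m w ≠ ⊥ → ∑ q, m q ≤ d * k * e) := by
  classical
  obtain ⟨w0, hw0, hw0F, hw0S⟩ := sep_sub hR hd hF hk hr
  obtain ⟨t, a, b, h0, h1, hB⟩ := Pool.Agent.TH873.VS.t_PT Pool.Agent.TH22.VS.t_TR d F hd hF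
  obtain ⟨H1, hH1, hH1'⟩ : ∃ H1 : ℕ → MvPolynomial (Fin r × Fin (3 + 1)) ℂ,
      (∀ j, ∃ w : Fin r → Fin (3 + 1) → ℂ, (∀ q, w q 0 = 1 ∧ eval (w q) F = 0) ∧
        eval (fun p => w p.1 p.2) (H1 j) ≠ 0) ∧
      ∀ w : Fin r → Fin (3 + 1) → ℂ, (∀ q, w q 0 = 1 ∧ eval (w q) F = 0) →
        (∀ j, eval (fun p => w p.1 p.2) (H1 j) ≠ 0) →
        (d ≤ r → ∀ (e : ℕ) (m : Fin r → ℕ), series F e m w ≠ ⊥ →
          (∑ q, m q) ^ 2 ≤ r * d * e ^ 2) := by
    rcases le_or_gt d r with h | h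
    · obtain ⟨H1, x1, x2⟩ := all d hd F hF r h
      exact ⟨H1, x1, fun w y1 y2 _ => (x2 w y1 y2).2.1⟩
    · exact ⟨fun _ => 1, fun _ => ⟨w0, fun q => ⟨hw0 q, hw0F q⟩, by simp⟩,
        fun w _ _ h' => absurd h' (by omega)⟩
  have hF0 : F ≠ 0 := by rintro rfl; simp at h1
  have hop : ∀ E s : ℕ, ∃ H : MvPolynomial (Fin r × Fin (3 + 1)) ℂ,
      eval (fun p => w0 p.1 p.2) H ≠ 0 ∧
      (k * s + k + d ≤ E + 3 → ∀ w : Fin r → Fin (3 + 1) → ℂ,
        eval (fun p => w p.1 p.2) H ≠ 0 → Sep (Ideal.span {F}) (X 0) E s w) := by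
    intro E s
    by_cases h : k * s + k + d ≤ E + 3
    · obtain ⟨H, hH1, hH2⟩ := (hw0S s E h).exists_open
      exact ⟨H, hH1, fun _ => hH2⟩
    · exact ⟨1, by simp, fun h' => absurd h' h⟩
  choose H2 hH2 hH2' using hop
  let Hs : MvPolynomial (Fin r × Fin (3 + 1)) ℂ :=
    ∏ q : Fin r, rename (fun i => (q, i)) (pderiv 3 F)
  have hHs : ∀ w : Fin r → Fin (3 + 1) → ℂ,
      eval (fun p => w p.1 p.2) Hs = ∏ q, eval (w q) (pderiv 3 F) := by
    intro w
    rw [map_prod]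
    refine Finset.prod_congr rfl fun q _ => ?_
    rw [eval_rename]; rfl
  let HH : ℕ → MvPolynomial (Fin r × Fin (3 + 1)) ℂ := fun j =>
    if j % 3 = 0 then H1 (j / 3) else
    if j % 3 = 1 then H2 (Nat.unpair (j / 3)).1 (Nat.unpair (j / 3)).2 else Hs
  have e1 : ∀ j, HH (3 * j) = H1 j := fun j => by
    simp only [HH]
    rw [if_pos (by omega), show 3 * j / 3 = j from by omega]
  have e2 : ∀ E s, HH (3 * Nat.pair E s + 1) = H2 E s := fun E s => by
    simp only [HH]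
    rw [if_neg (by omega), if_pos (by omega),
      show (3 * Nat.pair E s + 1) / 3 = Nat.pair E s from by omega, Nat.unpair_pair]
  have e3 : HH 2 = Hs := by simp [HH]
  refine ⟨HH, fun j => ?_, fun w hw hj => ?_⟩
  · by_cases c1 : j % 3 = 0
    · obtain ⟨w, x1, x2⟩ := hH1 (j / 3)
      refine ⟨w, x1, ?_⟩
      simp only [HH]
      rw [if_pos c1]
      exact x2
    · by_cases c2 : j % 3 = 1
      · refine ⟨w0, fun q => ⟨hw0 q, hw0F q⟩, ?_⟩
        simp only [HH]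
        rw [if_neg c1, if_pos c2]
        exact hH2 _ _
      · refine ⟨fun _ => pt t, fun _ => ⟨by simp [pt], h0⟩, ?_⟩
        simp only [HH]
        rw [if_neg c1, if_neg c2, show eval (fun p : Fin r × Fin (3 + 1) => pt t p.2) Hs =
          ∏ _q : Fin r, eval (pt t) (pderiv 3 F) from hHs (fun _ => pt t),
          Finset.prod_ne_zero_iff]
        exact fun q _ => h1
  have c2 := hH1' w hw (fun j => by have := hj (3 * j); rwa [e1] at this)
  have hsep : ∀ M e : ℕ, k * M + k + d ≤ e + 3 → Sep (Ideal.span {F}) (X 0) e M w := by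
    intro M e he
    have := hj (3 * Nat.pair e M + 1)
    rw [e2] at this
    exact hH2' e M he w this
  refine ⟨Sep_inj (le_refl 1) hw (hsep 1 (k * 1 + k + d) (by omega)), fun M e he m hm => ?_,
    fun hrk e m hne => ?_⟩
  · have hsm : ∀ q, ∃ i : Fin (3 + 1), i ≠ 0 ∧ eval (w q) (pderiv i F) ≠ 0 := by
      intro q
      have h2 := hj 2
      rw [e3, hHs, Finset.prod_ne_zero_iff] at h2
      exact ⟨3, by decide, h2 q (Finset.mem_univ q)⟩
    have h2 := Pool.Agent.TH582.SP.t_IND Pool.Agent.TH374.VSL.t_LOC F r e M w m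
      (fun q => (hw q).1) (fun q => (hw q).2) hsm (hsep M e he) hm
    have h7 : ((Module.finrank ℂ (series F e m w) : ℕ) : ℤ) + ∑ q, ((m q + 1).choose 2 : ℤ) =
        ((hilb (Ideal.span {F}) e : ℕ) : ℤ) := by exact_mod_cast h2
    rw [← hilb_eq hF.1 hF0 e]
    linarith
  · have h3 : d ≤ r := hrk ▸ Nat.le_mul_of_pos_right d (pow_pos hk 2)
    have h2 := c2 h3 e m hne
    have h4 : r * d * e ^ 2 = (d * k * e) ^ 2 := by rw [hrk]; ring
    rw [h4] at h2
    exact (Nat.pow_le_pow_iff_left two_ne_zero).1 h2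

end Pool.Agent.TH852.SP
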