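import Pool.Agent.TH852.SP.Fin

namespace Pool.Agent.TH852.SP

open MvPolynomial Filter Topology Pool.Agent.W607

/-- The final theorem with binomial coefficients. -/
theorem main (hF2 : S_FIN2) (hHF : S_HF) (hPT : S_PT) (d : ℕ) (hd : 3 ≤ d) (F : R4)
    (hF : VG d F) (r : ℕ) (hr : d ≤ r) :
    ∃ H : ℕ → MvPolynomial (Fin r × Fin (3 + 1)) ℂ,
      (∀ k, ∃ w : Fin r → Fin (3 + 1) → ℂ, (∀ q, w q 0 = 1 ∧ eval (w q) F = 0) ∧
        eval (fun p => w p.1 p.2) (H k) ≠ 0) ∧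
      ∀ w : Fin r → Fin (3 + 1) → ℂ, (∀ q, w q 0 = 1 ∧ eval (w q) F = 0) →
        (∀ k, eval (fun p => w p.1 p.2) (H k) ≠ 0) →
        Function.Injective w ∧
        (∀ (e : ℕ) (m : Fin r → ℕ), series F e m w ≠ ⊥ → (∑ q, m q) ^ 2 ≤ r * d * e ^ 2) ∧
        (∀ ε : ℝ, 0 < ε → ∃ M₀ : ℕ, ∀ M : ℕ, M₀ ≤ M → ∀ e : ℕ,
          (1 + ε) * √(r : ℝ) * M ≤ √(d : ℝ) * e → ∀ m : Fin r → ℕ, (∀ q, m q ≤ M) →
          (Module.finrank ℂ (series F e m w) : ℤ) =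
            (e + 3).choose 3 - (e + 3 - d).choose 3 - ∑ q, ((m q + 1).choose 2 : ℤ)) := by
  obtain ⟨H, hH1, hH2⟩ := hF2 d F hd hF r hr
  obtain ⟨t, a, b, h0, h1, hB⟩ := hPT d F hd hF
  have hF0 : F ≠ 0 := by rintro rfl; simp at h1
  refine ⟨H, fun k => ?_, fun w hw hk => ?_⟩
  · obtain ⟨w, b1, b2, b3⟩ := hH1 k
    exact ⟨w, fun q => ⟨b1 q, b2 q⟩, b3⟩
  obtain ⟨c1, c2, c3⟩ := hH2 w (fun q => (hw q).1) (fun q => (hw q).2) hk
  refine ⟨c1, fun e m hne => ?_, fun ε hε => ?_⟩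
  · have h2 := c2 e m hne
    have h3 : (0 : ℝ) ≤ ∑ q, (m q : ℝ) := by positivity
    have h4 : (∑ q, (m q : ℝ)) ^ 2 ≤ (√(r * d : ℝ) * e) ^ 2 := by gcongr
    rw [mul_pow, Real.sq_sqrt (by positivity)] at h4
    exact_mod_cast h4
  · obtain ⟨m0, hm0⟩ := c3 ε hε
    refine ⟨max m0 1, fun M hM e he m hm => ?_⟩
    have h2 := hm0 M ((le_max_left _ _).trans hM) e he m hm
    have hM1 : 1 ≤ M := (le_max_right _ _).trans hM
    have h3 := hHF d F hF.1 hF0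
    have h5 : hilb (Ideal.span {F}) e + (e + 3 - d).choose 3 = (e + 3).choose 3 := by
      rcases lt_or_ge e d with h | h
      · have h6 : (e + 3 - d).choose 3 = 0 := Nat.choose_eq_zero_of_lt (by omega)
        rw [h3.1 e h, h6, add_zero]
      · obtain ⟨u, rfl⟩ := Nat.exists_eq_add_of_le' h
        have h6 := h3.2 u
        rw [show u + d + 3 - d = u + 3 from by omega]
        exact h6
    have h6 : ((hilb (Ideal.span {F}) e : ℕ) : ℤ) = (e + 3).choose 3 - (e + 3 - d).choose 3 := by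
      rw [eq_sub_iff_add_eq]; exact_mod_cast h5
    have h7 : ((Module.finrank ℂ (series F e m w) : ℕ) : ℤ) + ∑ q, ((m q + 1).choose 2 : ℤ) =
        ((hilb (Ideal.span {F}) e : ℕ) : ℤ) := by exact_mod_cast h2
    rw [← h6]
    linarith

end Pool.Agent.TH852.SP
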