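import Pool.Agent.TH852.SP.Grid3
import Pool.Agent.TH79.PJ.Glue

set_option autoImplicit false

namespace Pool.Agent.TH852.SP

open MvPolynomial Pool.Agent.W607

theorem unit_of_hom0 {G : R4} (hG : G.IsHomogeneous 0) (hG0 : G ≠ 0) : IsUnit G := by
  have h1 : G = C (coeff 0 G) := by
    ext m
    rw [coeff_C]
    split_ifs with h
    · rw [h]
    · refine hG.coeff_eq_zero ?_
      intro h2
      exact h ((Finsupp.degree_eq_zero_iff m).1 h2).symm
  rw [h1]
  refine (isUnit_iff_ne_zero.2 ?_).map C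
  intro h
  exact hG0 (by rw [h1, h, map_zero])

theorem VG.irreducible {d : ℕ} {F : R4} (hd : 3 ≤ d) (hF : VG d F) : Irreducible F := by
  obtain ⟨t, a, b, h0, h1, hB⟩ := Pool.Agent.TH873.VS.t_PT Pool.Agent.TH22.VS.t_TR d F hd hF
  have hirr := Pool.Agent.TH251.VS.t_IRR Pool.Agent.TH22.VS.t_TR d _ hd hB
  have hF0 : F ≠ 0 := by rintro rfl; simp at h1
  have key : ∀ G H : R4, F = G * H → IsUnit (res t a b G) → IsUnit G := by
    intro G H hGH hu
    obtain ⟨p, q, hG, hH, -⟩ := Helper413.Quad.isHomogeneous_of_mul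
      (by rw [← hGH]; exact hF0) (by rw [← hGH]; exact hF.1)
    have hG0 : G ≠ 0 := by rintro rfl; exact hF0 (by rw [hGH, zero_mul])
    have hrG : res t a b G ≠ 0 := hu.ne_zero
    obtain ⟨u, hu'⟩ := hu.exists_right_inv
    have h2 : (res t a b G * u : R3).IsHomogeneous 0 := by
      rw [hu']; exact isHomogeneous_one _ _
    obtain ⟨a', b', ha', hb', hab⟩ := Helper413.Quad.isHomogeneous_of_mul
      (by rw [hu']; exact one_ne_zero) h2
    have h3 := (Pool.Agent.TH873.VS.res_hom hG t a b).inj_right ha' hrG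
    have hp : p = 0 := by omega
    subst hp
    exact unit_of_hom0 hG hG0
  refine irreducible_iff.2 ⟨fun hu => ?_, fun G H hGH => ?_⟩
  · exact hirr.not_isUnit (hu.map (res t a b))
  · have h4 : res t a b F = res t a b G * res t a b H := by rw [hGH, map_mul]
    rcases hirr.isUnit_or_isUnit h4 with h | h
    · exact Or.inl (key G H hGH h)
    · exact Or.inr (key H G (by rw [hGH, mul_comm]) h)

theorem eval_0001 {F : R4} {d : ℕ} (hF : F.IsHomogeneous d) :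
    eval ![0, 0, 0, 1] F = coeff (Finsupp.single 3 d) F := by
  classical
  rw [eval_eq', Finset.sum_eq_single (Finsupp.single 3 d)]
  · rw [Fin.prod_univ_four]; simp
  · intro α hα hne
    have hd : Finsupp.degree α = d := by
      by_contra h
      exact (mem_support_iff.1 hα) (hF.coeff_eq_zero h)
    rw [Pool.Agent.TH873.VS.deg4] at hd
    rw [Fin.prod_univ_four]
    by_cases h0 : α 0 = 0
    · by_cases h1 : α 1 = 0
      · by_cases h2 : α 2 = 0
        · exfalso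
          apply hne
          apply Pool.Agent.TH873.VS.ext4
          · simp [h0]
          · simp [h1]
          · simp [h2]
          · simp; omega
        · simp [h2]
      · simp [h1]
    · simp [h0]
  · intro h
    rw [notMem_support_iff.1 h, zero_mul]

/-- from separation of jets at one tuple of `r` points, in the range `T`, to the theorem -/
theorem exactT (d : ℕ) (hd : 3 ≤ d) (F : R4) (hF : VG d F) (r : ℕ) (T : ℕ → ℕ → Prop)
    (hT : ∃ e, T 1 e) (hS : ∀ M e, T M e → ∃ w : Fin r → Fin (3 + 1) → ℂ, (∀ q, w q 0 = 1) ∧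
      (∀ q, eval (w q) F = 0) ∧ Sep (Ideal.span {F}) (X 0) e M w) :
    ∃ H : ℕ → MvPolynomial (Fin r × Fin (3 + 1)) ℂ,
      (∀ j, ∃ w : Fin r → Fin (3 + 1) → ℂ, (∀ q, w q 0 = 1 ∧ eval (w q) F = 0) ∧
        eval (fun p => w p.1 p.2) (H j) ≠ 0) ∧
      ∀ w : Fin r → Fin (3 + 1) → ℂ, (∀ q, w q 0 = 1 ∧ eval (w q) F = 0) →
        (∀ j, eval (fun p => w p.1 p.2) (H j) ≠ 0) →
        Function.Injective w ∧
        (∀ M e : ℕ, T M e → ∀ m : Fin r → ℕ, (∀ q, m q ≤ M) →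
          (Module.finrank ℂ (series F e m w) : ℤ) =
            (e + 3).choose 3 - (e + 3 - d).choose 3 - ∑ q, ((m q + 1).choose 2 : ℤ)) ∧
        (d ≤ r → ∀ (e : ℕ) (m : Fin r → ℕ), series F e m w ≠ ⊥ →
          (∑ q, m q) ^ 2 ≤ r * d * e ^ 2) := by
  classical
  obtain ⟨t, a, b, h0, h1, hB⟩ := Pool.Agent.TH873.VS.t_PT Pool.Agent.TH22.VS.t_TR d F hd hF
  obtain ⟨H1, hH1, hH1'⟩ : ∃ H1 : ℕ → MvPolynomial (Fin r × Fin (3 + 1)) ℂ,
      (∀ j, ∃ w : Fin r → Fin (3 + 1) → ℂ, (∀ q, w q 0 = 1 ∧ eval (w q) F = 0) ∧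
        eval (fun p => w p.1 p.2) (H1 j) ≠ 0) ∧
      ∀ w : Fin r → Fin (3 + 1) → ℂ, (∀ q, w q 0 = 1 ∧ eval (w q) F = 0) →
        (∀ j, eval (fun p => w p.1 p.2) (H1 j) ≠ 0) →
        (d ≤ r → ∀ (e : ℕ) (m : Fin r → ℕ), series F e m w ≠ ⊥ →
          (∑ q, m q) ^ 2 ≤ r * d * e ^ 2) := by
    rcases le_or_gt d r with h | h
    · obtain ⟨H1, x1, x2⟩ := all d hd F hF r h
      exact ⟨H1, x1, fun w y1 y2 _ => (x2 w y1 y2).2.1⟩
    · exact ⟨fun _ => 1, fun _ => ⟨fun _ => pt t, fun _ => ⟨by simp [pt], h0⟩, by simp⟩,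
        fun w _ _ h' => absurd h' (by omega)⟩
  have hF0 : F ≠ 0 := by rintro rfl; simp at h1
  have hop : ∀ E s : ℕ, ∃ H : MvPolynomial (Fin r × Fin (3 + 1)) ℂ,
      (∃ w0 : Fin r → Fin (3 + 1) → ℂ, (∀ q, w0 q 0 = 1 ∧ eval (w0 q) F = 0) ∧
        eval (fun p => w0 p.1 p.2) H ≠ 0) ∧
      (T s E → ∀ w : Fin r → Fin (3 + 1) → ℂ,
        eval (fun p => w p.1 p.2) H ≠ 0 → Sep (Ideal.span {F}) (X 0) E s w) := by
    intro E s
    by_cases h : T s E
    · obtain ⟨w0, hw0, hw0F, hw0S⟩ := hS s E h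
      obtain ⟨H, hH1, hH2⟩ := hw0S.exists_open
      exact ⟨H, ⟨w0, fun q => ⟨hw0 q, hw0F q⟩, hH1⟩, fun _ => hH2⟩
    · exact ⟨1, ⟨fun _ => pt t, fun _ => ⟨by simp [pt], h0⟩, by simp⟩, fun h' => absurd h' h⟩
  choose H2 hH2 hH2' using hop
  let Hs : MvPolynomial (Fin r × Fin (3 + 1)) ℂ :=
    ∏ q : Fin r, rename (fun i => (q, i)) (pderiv 3 F)
  have hHs : ∀ w : Fin r → Fin (3 + 1) → ℂ,
      eval (fun p => w p.1 p.2) Hs = ∏ q, eval (w q) (pderiv 3 F) := by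
    intro w
    rw [map_prod]
    refine Finset.prod_congr rfl fun q _ => ?_
    rw [eval_rename]; rfl
  let HH : ℕ → MvPolynomial (Fin r × Fin (3 + 1)) ℂ := fun j =>
    if j % 3 = 0 then H1 (j / 3) else
    if j % 3 = 1 then H2 (Nat.unpair (j / 3)).1 (Nat.unpair (j / 3)).2 else Hs
  have e1 : ∀ j, HH (3 * j) = H1 j := fun j => by
    simp only [HH]
    rw [if_pos (by omega), show 3 * j / 3 = j from by omega]
  have e2 : ∀ E s, HH (3 * Nat.pair E s + 1) = H2 E s := fun E s => by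
    simp only [HH]
    rw [if_neg (by omega), if_pos (by omega),
      show (3 * Nat.pair E s + 1) / 3 = Nat.pair E s from by omega, Nat.unpair_pair]
  have e3 : HH 2 = Hs := by simp [HH]
  refine ⟨HH, fun j => ?_, fun w hw hj => ?_⟩
  · by_cases c1 : j % 3 = 0
    · obtain ⟨w, x1, x2⟩ := hH1 (j / 3)
      refine ⟨w, x1, ?_⟩
      simp only [HH]
      rw [if_pos c1]
      exact x2
    · by_cases c2 : j % 3 = 1
      · obtain ⟨w0, x1, x2⟩ := hH2 (Nat.unpair (j / 3)).1 (Nat.unpair (j / 3)).2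
        refine ⟨w0, x1, ?_⟩
        simp only [HH]
        rw [if_neg c1, if_pos c2]
        exact x2
      · refine ⟨fun _ => pt t, fun _ => ⟨by simp [pt], h0⟩, ?_⟩
        simp only [HH]
        rw [if_neg c1, if_neg c2, show eval (fun p : Fin r × Fin (3 + 1) => pt t p.2) Hs =
          ∏ _q : Fin r, eval (pt t) (pderiv 3 F) from hHs (fun _ => pt t),
          Finset.prod_ne_zero_iff]
        exact fun q _ => h1
  have c2 := hH1' w hw (fun j => by have := hj (3 * j); rwa [e1] at this)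
  have hsep : ∀ M e : ℕ, T M e → Sep (Ideal.span {F}) (X 0) e M w := by
    intro M e he
    have := hj (3 * Nat.pair e M + 1)
    rw [e2] at this
    exact hH2' e M he w this
  obtain ⟨e1', he1'⟩ := hT
  refine ⟨Sep_inj (le_refl 1) hw (hsep 1 e1' he1'), fun M e he m hm => ?_, c2⟩
  have hsm : ∀ q, ∃ i : Fin (3 + 1), i ≠ 0 ∧ eval (w q) (pderiv i F) ≠ 0 := by
    intro q
    have h2 := hj 2
    rw [e3, hHs, Finset.prod_ne_zero_iff] at h2
    exact ⟨3, by decide, h2 q (Finset.mem_univ q)⟩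
  have h2 := Pool.Agent.TH582.SP.t_IND Pool.Agent.TH374.VSL.t_LOC F r e M w m
    (fun q => (hw q).1) (fun q => (hw q).2) hsm (hsep M e he) hm
  have h7 : ((Module.finrank ℂ (series F e m w) : ℕ) : ℤ) + ∑ q, ((m q + 1).choose 2 : ℤ) =
      ((hilb (Ideal.span {F}) e : ℕ) : ℤ) := by exact_mod_cast h2
  rw [← hilb_eq hF.1 hF0 e]
  linarith

/-- the exact theorem at `r ≤ d n` points, `n ≥ 10` or `n = k ^ 2` -/
theorem exactN (h1 : Pool.Agent.TH749.PJ.S_P1) (h2 : Pool.Agent.TH749.PJ.S_P2)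
    (h3 : Pool.Agent.TH749.PJ.S_P3) (hR : S_ROOTS) (d : ℕ) (hd : 3 ≤ d) (F : R4) (hF : VG d F)
    (n : ℕ) (r : ℕ) (hr : r ≤ d * n) (hr0 : 10 ≤ n ∨ ∃ k, 1 ≤ k ∧ n = k ^ 2) :
    ∃ H : ℕ → MvPolynomial (Fin r × Fin (3 + 1)) ℂ,
      (∀ j, ∃ w : Fin r → Fin (3 + 1) → ℂ, (∀ q, w q 0 = 1 ∧ eval (w q) F = 0) ∧
        eval (fun p => w p.1 p.2) (H j) ≠ 0) ∧
      ∀ w : Fin r → Fin (3 + 1) → ℂ, (∀ q, w q 0 = 1 ∧ eval (w q) F = 0) →
        (∀ j, eval (fun p => w p.1 p.2) (H j) ≠ 0) →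
        Function.Injective w ∧
        (∀ M e : ℕ, ((10 ≤ n ∧ √(n : ℝ) * (M + 1) + d < e + 4) ∨
            ∃ k, n = k ^ 2 ∧ k * (M + 1) + d ≤ e + 3) → ∀ m : Fin r → ℕ, (∀ q, m q ≤ M) →
          (Module.finrank ℂ (series F e m w) : ℤ) =
            (e + 3).choose 3 - (e + 3 - d).choose 3 - ∑ q, ((m q + 1).choose 2 : ℤ)) ∧
        (r = d * n → ∀ (e : ℕ) (m : Fin r → ℕ), series F e m w ≠ ⊥ →
          (∑ q, m q) ^ 2 ≤ n * (d * e) ^ 2) := by
  have hF1 : eval ![0, 0, 0, 1] F ≠ 0 := by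
    have h5 := eval_0001 hF.1
    rw [h5]
    exact hF.2.ne_zero (⟨Finsupp.single 3 d, by simp⟩ : {α : Fin (3 + 1) →₀ ℕ // Finsupp.degree α = d})
  obtain ⟨H, x1, x2⟩ := exactT d hd F hF r (fun M e =>
      (10 ≤ n ∧ √(n : ℝ) * (M + 1) + d < e + 4) ∨ ∃ k, n = k ^ 2 ∧ k * (M + 1) + d ≤ e + 3) (by
    rcases hr0 with h | ⟨k, hk, h⟩
    · obtain ⟨e, he⟩ := exists_nat_gt (√(n : ℝ) * ((1 : ℕ) + 1) + d)
      exact ⟨e, Or.inl ⟨h, by linarith⟩⟩
    · exact ⟨k * (1 + 1) + d, Or.inr ⟨k, h, by omega⟩⟩) (by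
    intro M e hMe
    rcases hMe with ⟨hn, hMe⟩ | ⟨k, hk, hMe⟩
    · have h6 : (3 : ℝ) ≤ √(n : ℝ) := Real.le_sqrt_of_sq_le (by
        have : (10 : ℝ) ≤ n := by exact_mod_cast hn
        norm_num; linarith)
      have h7 : (3 : ℝ) ≤ √(n : ℝ) * (M + 1) := by nlinarith [Nat.cast_nonneg (α := ℝ) M]
      have h8 : (d : ℝ) < e + 1 := by linarith
      have h9 : d ≤ e := by
        have : d < e + 1 := by exact_mod_cast h8
        omega
      obtain ⟨w, y1, y2, y3⟩ := Pool.Agent.TH79.PJ.glue h1 h2 h3 (by omega : 1 ≤ d) hF.1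
        (VG.irreducible hd hF) hF1 hn (M := M) (E := e + 1 - d) (by
          have : ((e + 1 - d : ℕ) : ℝ) = e + 1 - d := by
            rw [Nat.cast_sub (by omega)]; push_cast; ring
          rw [this]; linarith)
      have hr' : r ≤ n * d := by rw [mul_comm]; exact hr
      rw [show e + 1 - d + d - 1 = e from by omega] at y3
      refine ⟨fun q => w (Fin.castLE hr' q), fun q => y1 _, fun q => y2 _, fun q f => ?_⟩
      obtain ⟨G, z1, z2, z3⟩ := y3 (Fin.castLE hr' q) f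
      exact ⟨G, z1, z2, fun q' hq' => z3 _ fun h => hq' (Fin.castLE_injective hr' h)⟩
    · rcases Nat.eq_zero_or_pos k with hk0 | hk0
      · subst hk0
        have hr1 : r = 0 := by
          rw [hk] at hr; simpa using hr
        subst hr1
        exact ⟨fun q => q.elim0, fun q => q.elim0, fun q => q.elim0, fun q => q.elim0⟩
      · subst hk
        obtain ⟨w, y1, y2, y3⟩ := sep_sub hR hd hF hk0 hr
        refine ⟨w, y1, y2, y3 M e ?_⟩
        rw [Nat.mul_add, mul_one] at hMe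
        exact hMe)
  refine ⟨H, x1, fun w hw hj => ?_⟩
  obtain ⟨z1, z2, z3⟩ := x2 w hw hj
  refine ⟨z1, z2, fun hrn e m hne => ?_⟩
  have hn : 1 ≤ n := by
    rcases hr0 with h | ⟨k, hk, h⟩
    · omega
    · rw [h]; exact Nat.one_le_iff_ne_zero.2 (pow_ne_zero 2 (by omega))
  have h8 := z3 (by rw [hrn]; exact Nat.le_mul_of_pos_right d hn) e m hne
  have h9 : r * d * e ^ 2 = n * (d * e) ^ 2 := by rw [hrn]; ring
  rwa [h9] at h8

end Pool.Agent.TH852.SP
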