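import Mathlib
import Pool.Agent.W607.OpenSep

/-!
Fat points on very general surfaces in `P^3`: definitions and statements of the pieces.
-/

namespace Pool.Agent.TH852.SP

open MvPolynomial Filter Topology Pool.Agent.W607

abbrev R4 := MvPolynomial (Fin (3 + 1)) ℂ
abbrev R3 := MvPolynomial (Fin 3) ℂ

/-- `F` is a very general form of degree `d`: its coefficients are algebraically independent. -/
def VG (d : ℕ) (F : R4) : Prop :=
  F.IsHomogeneous d ∧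
    AlgebraicIndependent ℚ
      (fun α : {α : Fin (3 + 1) →₀ ℕ // Finsupp.degree α = d} => coeff α.1 F)

/-- The point `(1, 0, 0, t)`. -/
def pt (t : ℂ) : Fin (3 + 1) → ℂ := ![1, 0, 0, t]

/-- Restriction to the plane `x_3 = t x_0 + a x_1 + b x_2`. -/
noncomputable def res (t a b : ℂ) : R4 →ₐ[ℂ] R3 :=
  aeval ![X 0, X 1, X 2, C t * X 0 + C a * X 1 + C b * X 2]

/-- The equation of the plane. -/
noncomputable def pl (t a b : ℂ) : R4 := X 3 - (C t * X 0 + C a * X 1 + C b * X 2)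

/-- A form of degree `d` in three variables, singular at `(1, 0, 0)` and otherwise generic. -/
structure GenNode (d : ℕ) (B : R3) : Prop where
  hom : B.IsHomogeneous d
  zero : ∀ α : Fin 3 →₀ ℕ, d < α 0 + 2 → coeff α B = 0
  ind : AlgebraicIndependent ℚ
    (fun α : {α : Fin 3 →₀ ℕ // Finsupp.degree α = d ∧ α 0 + 2 ≤ d} => coeff α.1 B)

/-- (TR) transcendence degree. -/
def S_TR : Prop := ∀ (ι κ : Type) [Fintype ι] [Fintype κ] (x : ι → ℂ) (y : κ → ℂ),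
  AlgebraicIndependent ℚ x →
  (∀ i, IsAlgebraic (IntermediateField.adjoin ℚ (Set.range y)) (x i)) →
  Fintype.card ι ≤ Fintype.card κ ∧
    (Fintype.card ι = Fintype.card κ → AlgebraicIndependent ℚ y)

/-- (PT) the tangent plane section at `(1, 0, 0, t)`. -/
def S_PT : Prop := ∀ (d : ℕ) (F : R4), 3 ≤ d → VG d F → ∃ t a b : ℂ,
  eval (pt t) F = 0 ∧ eval (pt t) (pderiv 3 F) ≠ 0 ∧ GenNode d (res t a b F)

/-- (IRR) a generic plane curve with a double point is irreducible. -/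
def S_IRR : Prop := ∀ (d : ℕ) (B : R3), 3 ≤ d → GenNode d B → Irreducible B

/-- (NODE) node and smooth point. -/
def S_NODE : Prop := ∀ (d : ℕ) (F : R4) (t a b : ℂ), 3 ≤ d → F.IsHomogeneous d →
  eval (pt t) F = 0 → eval (pt t) (pderiv 3 F) ≠ 0 → GenNode d (res t a b F) →
  Module.finrank ℂ (R4 ⧸ (Ideal.span {F} ⊔ (mw (pt t)) ^ 2)) = 4 ∧
  ∃ α β : R4, α.IsHomogeneous 1 ∧ β.IsHomogeneous 1 ∧ eval (pt t) α = 0 ∧ eval (pt t) β = 0 ∧
    (∀ a b : ℂ, C a * α + C b * β ∈ Ideal.span {F} ⊔ Ideal.span {X 0 - 1} ⊔ (mw (pt t)) ^ 2 →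
      a = 0 ∧ b = 0) ∧
    pl t a b - α * β ∈ Ideal.span {F} ⊔ Ideal.span {X 0 - 1} ⊔ (mw (pt t)) ^ 3

/-- (PR) prime ideals. -/
def S_PR : Prop := ∀ (d : ℕ) (F : R4) (t a b : ℂ), F.IsHomogeneous d →
  Irreducible (res t a b F) →
  (Ideal.span {F}).IsPrime ∧ Hmg (Ideal.span {F}) ∧
  (Ideal.span {F} ⊔ Ideal.span {pl t a b}).IsPrime ∧
  Hmg (Ideal.span {F} ⊔ Ideal.span {pl t a b}) ∧ pl t a b ∉ Ideal.span {F}

/-- (HF) the Hilbert function of a surface in `P^3`. -/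
def S_HF : Prop := ∀ (d : ℕ) (F : R4), F.IsHomogeneous d → F ≠ 0 →
  (∀ t < d, hilb (Ideal.span {F}) t = (t + 3).choose 3) ∧
  ∀ t, hilb (Ideal.span {F}) (t + d) + (t + 3).choose 3 = (t + d + 3).choose 3

/-- The ideal of the point `w` of the surface `F = 0` in the chart `x_0 = 1`, `s`-th power. -/
noncomputable def JJ (F : R4) (w : Fin (3 + 1) → ℂ) (s : ℕ) : Ideal R4 :=
  Ideal.span {F} ⊔ Ideal.span {X 0 - 1} ⊔ (mw w) ^ s

/-- (LOC) the local ring at a smooth point of the surface. -/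
def S_LOC : Prop := ∀ (F : R4) (w : Fin (3 + 1) → ℂ), w 0 = 1 → eval w F = 0 →
  (∃ i : Fin (3 + 1), i ≠ 0 ∧ eval w (pderiv i F) ≠ 0) → ∀ s : ℕ,
  FiniteDimensional ℂ (R4 ⧸ JJ F w s) ∧
  2 * Module.finrank ℂ (R4 ⧸ JJ F w s) = s * (s + 1)

/-- (INEQ) from separation of jets to an inequality for the multiplicities of one form. -/
def S_INEQ : Prop := ∀ (F : R4) (n E s e : ℕ) (w : Fin n → Fin (3 + 1) → ℂ) (m : Fin n → ℕ)
  (G : R4), (Ideal.span {F}).IsPrime → (∀ q, w q 0 = 1) → (∀ q, eval (w q) F = 0) →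
  (∀ q, ∃ i : Fin (3 + 1), i ≠ 0 ∧ eval (w q) (pderiv i F) ≠ 0) →
  Sep (Ideal.span {F}) (X 0) E s w → (∀ q, m q ≤ s) → e ≤ E → G.IsHomogeneous e →
  G ∉ Ideal.span {F} → (∀ q, G ∈ JJ F (w q) (m q)) →
  (∑ q, m q * s) + hilb (Ideal.span {F}) (E - e) ≤
    hilb (Ideal.span {F}) E + ∑ q, (m q).choose 2

/-- The vector space of the curves of degree `e` on the surface `F = 0` with multiplicity at least
`m q` at the point `w q`. -/
noncomputable def series {n : ℕ} (F : R4) (e : ℕ) (m : Fin n → ℕ)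
    (w : Fin n → Fin (3 + 1) → ℂ) : Submodule ℂ (R4 ⧸ Ideal.span {F}) :=
  Submodule.map (Ideal.Quotient.mkₐ ℂ (Ideal.span {F})).toLinearMap
    (homogeneousSubmodule (Fin (3 + 1)) ℂ e ⊓
      Submodule.restrictScalars ℂ (⨅ q, JJ F (w q) (m q)))

/-- (IND) from separation of jets to the dimension of a linear series. -/
def S_IND : Prop := ∀ (F : R4) (n E s : ℕ) (w : Fin n → Fin (3 + 1) → ℂ) (m : Fin n → ℕ),
  (∀ q, w q 0 = 1) → (∀ q, eval (w q) F = 0) →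
  (∀ q, ∃ i : Fin (3 + 1), i ≠ 0 ∧ eval (w q) (pderiv i F) ≠ 0) →
  Sep (Ideal.span {F}) (X 0) E s w → (∀ q, m q ≤ s) →
  Module.finrank ℂ (series F E m w) + ∑ q, (m q + 1).choose 2 = hilb (Ideal.span {F}) E

/-- (SEP) separation of jets at general points for all large `s`. -/
def S_SEP : Prop := ∀ (d : ℕ) (F : R4), 3 ≤ d → VG d F → ∀ n : ℕ, d ≤ n → ∀ ρ : ℝ, 1 < ρ →
  ∃ s0 : ℕ, ∀ s, s0 ≤ s → ∀ E : ℕ, ρ * (√n * s) ≤ √d * E →
    ∃ w : Fin n → Fin (3 + 1) → ℂ, (∀ q, w q 0 = 1) ∧ (∀ q, eval (w q) F = 0) ∧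
      Sep (Ideal.span {F}) (X 0) E s w

/-- (FIN) the final theorem. -/
def S_FIN : Prop := ∀ (d : ℕ) (F : R4), 3 ≤ d → VG d F → ∀ r : ℕ, d ≤ r →
  ∃ H : ℕ → MvPolynomial (Fin r × Fin (3 + 1)) ℂ,
    (∀ k, ∃ w : Fin r → Fin (3 + 1) → ℂ, (∀ q, w q 0 = 1) ∧ (∀ q, eval (w q) F = 0) ∧
      eval (fun p => w p.1 p.2) (H k) ≠ 0) ∧
    ∀ w : Fin r → Fin (3 + 1) → ℂ, (∀ q, w q 0 = 1) → (∀ q, eval (w q) F = 0) →
      (∀ k, eval (fun p => w p.1 p.2) (H k) ≠ 0) →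
      (∀ (e : ℕ) (m : Fin r → ℕ), series F e m w ≠ ⊥ →
        (∑ q, (m q : ℝ)) ≤ √(r * d : ℝ) * e) ∧
      (∀ ε : ℝ, 0 < ε → ∃ m0 : ℕ, ∀ M : ℕ, m0 ≤ M → ∀ e : ℕ,
        (1 + ε) * √(r : ℝ) * M ≤ √(d : ℝ) * e → ∀ m : Fin r → ℕ, (∀ q, m q ≤ M) →
        Module.finrank ℂ (series F e m w) + ∑ q, (m q + 1).choose 2 =
          hilb (Ideal.span {F}) e)

end Pool.Agent.TH852.SP
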