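import Pool.Agent.TH852.SP.Plane
import Pool.Agent.TH749.PJ.P1
import Pool.Agent.TH749.PJ.P3
import Pool.Agent.TH623.PJ.P2
import Pool.Agent.TH424.VS.Roots

set_option autoImplicit false

namespace Pool.Agent.TH852.SP

open MvPolynomial Pool.Agent.W607

theorem window (d : ℕ) (hd : 3 ≤ d) (F : R4) (hF : VG d F) (n : ℕ)
    (hn : 10 ≤ n ∨ ∃ k, 1 ≤ k ∧ n = k ^ 2) (r : ℕ) (hr : r ≤ d * n) :
    ∃ H : ℕ → MvPolynomial (Fin r × Fin (3 + 1)) ℂ,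
      (∀ j, ∃ w : Fin r → Fin (3 + 1) → ℂ, (∀ q, w q 0 = 1 ∧ eval (w q) F = 0) ∧
        eval (fun p => w p.1 p.2) (H j) ≠ 0) ∧
      ∀ w : Fin r → Fin (3 + 1) → ℂ, (∀ q, w q 0 = 1 ∧ eval (w q) F = 0) →
        (∀ j, eval (fun p => w p.1 p.2) (H j) ≠ 0) →
        Function.Injective w ∧
        (∀ M e : ℕ, √(n : ℝ) * (M + 1) + d < e + 4 → ∀ m : Fin r → ℕ, (∀ q, m q ≤ M) →
          (Module.finrank ℂ (series F e m w) : ℤ) =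
            (e + 3).choose 3 - (e + 3 - d).choose 3 - ∑ q, ((m q + 1).choose 2 : ℤ)) ∧
        (r = d * n → ∀ (e : ℕ) (m : Fin r → ℕ), series F e m w ≠ ⊥ →
          (∑ q, m q) ^ 2 ≤ n * (d * e) ^ 2) := by
  obtain ⟨H, x1, x2⟩ := exactN Pool.Agent.TH749.PJ.t_P1 Pool.Agent.TH623.PJ.t_P2
    Pool.Agent.TH749.PJ.t_P3
    (fun _ _ h1 h2 i j => Pool.Agent.TH424.VS.t_ROOTS Pool.Agent.TH22.VS.t_TR h1 h2 i j)
    d hd F hF n r hr hn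
  refine ⟨H, x1, fun w hw hj => ?_⟩
  obtain ⟨y1, y2, y3⟩ := x2 w hw hj
  refine ⟨y1, fun M e hMe m hm => y2 M e ?_ m hm, y3⟩
  rcases hn with h | ⟨k, hk, h⟩
  · exact Or.inl ⟨h, hMe⟩
  · refine Or.inr ⟨k, h, ?_⟩
    have h5 : √(n : ℝ) = k := by rw [h]; push_cast; exact Real.sqrt_sq (Nat.cast_nonneg k)
    rw [h5] at hMe
    have h6 : k * (M + 1) + d < e + 4 := by exact_mod_cast hMe
    omega

end Pool.Agent.TH852.SP
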